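import Mathlib

set_option autoImplicit false

namespace Pool.Agent.P.MP_e94690_lc

open Finset

lemma fin3_four : ∀ x y z w : Fin 3, x = y ∨ x = z ∨ x = w ∨ y = z ∨ y = w ∨ z = w := by decide

lemma fin3_avoid : ∀ a b : Fin 3, ∃ c : Fin 3, c ≠ a ∧ c ≠ b := by decide

lemma fin3_two : ∀ p q s : Fin 3, p ≠ q → ∃ i j : Fin 3, i ≠ j ∧ i ≠ s ∧ j ≠ s ∧ i ≠ p ∧ j ≠ q := by
  decide

noncomputable section
open Classical

variable {V : Type}

/-- number of neighbours of `v` inside `A` -/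
def dg (G : SimpleGraph V) (A : Finset V) (v : V) : ℕ := (A.filter (G.Adj v)).card

/-- number of ordered adjacent pairs in `A × B` -/
def ee (G : SimpleGraph V) (A B : Finset V) : ℕ := ∑ v ∈ A, dg G B v

/-- twice the Kostochka-Yancey potential `5 |A| - 3 e(A)` -/
def pot (G : SimpleGraph V) (A : Finset V) : ℤ := 10 * (A.card : ℤ) - 3 * (ee G A A : ℤ)

def Prop3 (G : SimpleGraph V) (A : Finset V) (c : V → Fin 3) : Prop :=
  ∀ u ∈ A, ∀ v ∈ A, G.Adj u v → c u ≠ c v

def Col (G : SimpleGraph V) (A : Finset V) : Prop := ∃ c : V → Fin 3, Prop3 G A c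

def Crit (G : SimpleGraph V) (A : Finset V) : Prop := ¬ Col G A ∧ ∀ B ⊂ A, Col G B

def Clq (G : SimpleGraph V) (X : Finset V) : Prop := ∀ u ∈ X, ∀ v ∈ X, u ≠ v → G.Adj u v

def TriFree (G : SimpleGraph V) (A : Finset V) : Prop :=
  ∀ a ∈ A, ∀ b ∈ A, ∀ c ∈ A, G.Adj a b → G.Adj a c → G.Adj b c → False

variable {G H : SimpleGraph V} {A B R : Finset V}

lemma dg_mono (h : A ⊆ B) (v : V) : dg G A v ≤ dg G B v :=
  card_le_card (filter_subset_filter _ h)

lemma dg_union (h : Disjoint A B) (v : V) : dg G (A ∪ B) v = dg G A v + dg G B v := by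
  unfold dg
  rw [filter_union, card_union_of_disjoint (disjoint_filter_filter h)]

lemma dg_singleton (u v : V) : dg G {u} v = if G.Adj v u then 1 else 0 := by
  unfold dg
  rw [filter_singleton]
  split_ifs <;> simp

lemma dg_insert {u : V} (h : u ∉ A) (v : V) :
    dg G (insert u A) v = dg G A v + if G.Adj v u then 1 else 0 := by
  rw [insert_eq, dg_union (disjoint_singleton_left.2 h), dg_singleton, add_comm]

lemma dg_erase {u : V} (h : u ∈ A) (v : V) :
    dg G A v = dg G (A.erase u) v + if G.Adj v u then 1 else 0 := by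
  rw [← dg_insert (notMem_erase u A), insert_erase h]

lemma dg_sdiff (h : B ⊆ A) (v : V) : dg G A v = dg G B v + dg G (A \ B) v := by
  rw [← dg_union disjoint_sdiff, union_sdiff_of_subset h]

lemma dg_congr {v : V} (h : ∀ u ∈ A, G.Adj v u ↔ H.Adj v u) : dg G A v = dg H A v := by
  unfold dg
  rw [filter_congr h]

lemma dg_le_card (v : V) : dg G A v ≤ A.card := card_filter_le _ _

lemma dg_eq_zero {v : V} : dg G A v = 0 ↔ ∀ u ∈ A, ¬ G.Adj v u := by
  unfold dg
  rw [card_eq_zero, filter_eq_empty_iff]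

lemma dg_pos {v : V} : 0 < dg G A v ↔ ∃ u ∈ A, G.Adj v u := by
  unfold dg
  rw [card_pos]
  constructor
  · rintro ⟨u, hu⟩
    exact ⟨u, (mem_filter.1 hu).1, (mem_filter.1 hu).2⟩
  · rintro ⟨u, hu, h⟩
    exact ⟨u, mem_filter.2 ⟨hu, h⟩⟩

lemma le_dg {v : V} (S : Finset V) (hS : S ⊆ A) (h : ∀ u ∈ S, G.Adj v u) : S.card ≤ dg G A v :=
  card_le_card fun u hu => mem_filter.2 ⟨hS hu, h u hu⟩

lemma dg_le {v : V} (S : Finset V) (h : ∀ u ∈ A, G.Adj v u → u ∈ S) : dg G A v ≤ S.card :=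
  card_le_card fun u hu => h u (mem_filter.1 hu).1 (mem_filter.1 hu).2

lemma dg_lt_card {v : V} (h : v ∈ A) : dg G A v < A.card := by
  apply card_lt_card
  refine ⟨filter_subset _ _, fun hh => ?_⟩
  exact G.irrefl (mem_filter.1 (hh h)).2

lemma ee_comm (A B : Finset V) : ee G A B = ee G B A := by
  unfold ee dg
  simp only [card_filter]
  rw [sum_comm]
  refine sum_congr rfl fun u _ => sum_congr rfl fun v _ => ?_
  simp only [G.adj_comm]

lemma ee_union_left (h : Disjoint A B) (C : Finset V) : ee G (A ∪ B) C = ee G A C + ee G B C :=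
  sum_union h

lemma ee_union_right (h : Disjoint A B) (C : Finset V) :
    ee G C (A ∪ B) = ee G C A + ee G C B := by
  rw [ee_comm, ee_union_left h, ee_comm A, ee_comm B]

lemma ee_singleton (v : V) : ee G {v} A = dg G A v := sum_singleton _ _

lemma ee_congr (h : ∀ u ∈ A, ∀ v ∈ B, G.Adj u v ↔ H.Adj u v) : ee G A B = ee H A B :=
  sum_congr rfl fun u hu => dg_congr (h u hu)

lemma pot_congr (h : ∀ u ∈ A, ∀ v ∈ A, G.Adj u v ↔ H.Adj u v) : pot G A = pot H A := by
  unfold pot
  rw [ee_congr h]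

lemma pot_union (h : Disjoint A B) : pot G (A ∪ B) = pot G A + pot G B - 6 * (ee G A B : ℤ) := by
  unfold pot
  rw [ee_union_left h, ee_union_right h, ee_union_right h, card_union_of_disjoint h, ee_comm B A]
  push_cast
  ring

lemma pot_singleton (v : V) : pot G {v} = 10 := by
  unfold pot
  rw [ee_singleton, dg_singleton]
  simp

lemma pot_insert {v : V} (h : v ∉ A) :
    pot G (insert v A) = pot G A + 10 - 6 * (dg G A v : ℤ) := by
  rw [insert_eq, pot_union (disjoint_singleton_left.2 h), pot_singleton, ee_singleton]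
  ring

lemma pot_erase {v : V} (h : v ∈ A) :
    pot G A = pot G (A.erase v) + 10 - 6 * (dg G A v : ℤ) := by
  have h1 := pot_insert (G := G) (notMem_erase v A)
  rw [insert_erase h] at h1
  rw [h1, dg_erase h v]
  simp

lemma pot_even (G : SimpleGraph V) (A : Finset V) : ∃ k : ℤ, pot G A = 2 * k := by
  induction A using Finset.induction_on with
  | empty => exact ⟨0, by simp [pot, ee]⟩
  | insert v A hv ih =>
    obtain ⟨k, hk⟩ := ih
    exact ⟨k + 5 - 3 * dg G A v, by rw [pot_insert hv, hk]; ring⟩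

lemma pot_ge (G : SimpleGraph V) (A : Finset V) :
    10 * (A.card : ℤ) - 3 * A.card * (A.card - 1) ≤ pot G A := by
  have : (ee G A A : ℤ) ≤ ∑ v ∈ A, ((A.card : ℤ) - 1) := by
    unfold ee
    push_cast
    refine sum_le_sum fun v hv => ?_
    have := dg_lt_card (G := G) hv
    omega
  rw [sum_const, nsmul_eq_mul] at this
  unfold pot
  nlinarith

lemma pot_small (h2 : 2 ≤ A.card) (h3 : A.card ≤ 3) : 12 ≤ pot G A := by
  have := pot_ge G A
  have h : A.card = 2 ∨ A.card = 3 := by omega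
  rcases h with h | h <;> rw [h] at this <;> push_cast at this <;> omega

lemma pot_clq (h : Clq G A) : pot G A = 10 * (A.card : ℤ) - 3 * A.card * (A.card - 1) := by
  have : (ee G A A : ℤ) = ∑ v ∈ A, ((A.card : ℤ) - 1) := by
    unfold ee
    push_cast
    refine sum_congr rfl fun v hv => ?_
    have h1 := dg_lt_card (G := G) hv
    have h2 := le_dg (G := G) (v := v) (A.erase v) (erase_subset _ _)
      (fun u hu => h v hv u (mem_of_mem_erase hu) (ne_of_mem_erase hu).symm)
    rw [card_erase_of_mem hv] at h2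
    omega
  rw [sum_const, nsmul_eq_mul] at this
  unfold pot
  rw [this]
  ring

lemma Col.mono (h : Col G A) (hB : B ⊆ A) : Col G B := by
  obtain ⟨c, hc⟩ := h
  exact ⟨c, fun u hu v hv => hc u (hB hu) v (hB hv)⟩

lemma Col.of_le (h : Col H A) (hG : ∀ u ∈ A, ∀ v ∈ A, G.Adj u v → H.Adj u v) : Col G A := by
  obtain ⟨c, hc⟩ := h
  exact ⟨c, fun u hu v hv huv => hc u hu v hv (hG u hu v hv huv)⟩

lemma exists_crit (h : ¬ Col G A) : ∃ K ⊆ A, Crit G K := by
  induction A using Finset.strongInduction with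
  | H A ih =>
    by_cases h1 : ∀ B ⊂ A, Col G B
    · exact ⟨A, Subset.rfl, h, h1⟩
    · push Not at h1
      obtain ⟨B, hB, hc⟩ := h1
      obtain ⟨K, hK, hk⟩ := ih B hB hc
      exact ⟨K, hK.trans hB.1, hk⟩

/-- extend a colouring to one more vertex -/
lemma Prop3.insert {c : V → Fin 3} (hc : Prop3 G A c) {v : V} (hv : v ∉ A) (i : Fin 3)
    (hi : ∀ u ∈ A, G.Adj v u → c u ≠ i) : Prop3 G (insert v A) (Function.update c v i) := by
  intro a ha b hb hab
  rcases mem_insert.1 ha with rfl | ha'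
  · rcases mem_insert.1 hb with rfl | hb'
    · exact absurd hab G.irrefl
    · rw [Function.update_self, Function.update_of_ne (ne_of_mem_of_not_mem hb' hv)]
      exact (hi b hb' hab).symm
  · rcases mem_insert.1 hb with rfl | hb'
    · rw [Function.update_self, Function.update_of_ne (ne_of_mem_of_not_mem ha' hv)]
      exact hi a ha' hab.symm
    · rw [Function.update_of_ne (ne_of_mem_of_not_mem ha' hv),
        Function.update_of_ne (ne_of_mem_of_not_mem hb' hv)]
      exact hc a ha' b hb' hab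

lemma Col.insert_of_dg (h : Col G A) {v : V} (hd : dg G A v ≤ 2) : Col G (insert v A) := by
  by_cases hv : v ∈ A
  · rwa [insert_eq_of_mem hv]
  obtain ⟨c, hc⟩ := h
  have h1 : ((A.filter (G.Adj v)).image c).card < (univ : Finset (Fin 3)).card := by
    have := card_image_le (s := A.filter (G.Adj v)) (f := c)
    unfold dg at hd
    simp only [card_univ, Fintype.card_fin]
    omega
  obtain ⟨i, -, hi⟩ := exists_mem_notMem_of_card_lt_card h1
  refine ⟨_, hc.insert hv i fun u hu huv hci => hi ?_⟩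
  exact mem_image.2 ⟨u, mem_filter.2 ⟨hu, huv⟩, hci⟩

lemma Crit.deg (h : Crit G A) {v : V} (hv : v ∈ A) : 3 ≤ dg G A v := by
  by_contra hd
  apply h.1
  have h1 := (h.2 _ (erase_ssubset hv)).insert_of_dg (v := v)
    (le_trans (dg_mono (erase_subset _ _) v) (by omega))
  rwa [insert_erase hv] at h1

lemma Crit.nonempty (h : Crit G A) : A.Nonempty := by
  rw [nonempty_iff_ne_empty]
  rintro rfl
  exact h.1 ⟨fun _ => 0, fun u hu => by simp at hu⟩

lemma Crit.four_le (h : Crit G A) : 4 ≤ A.card := by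
  obtain ⟨v, hv⟩ := h.nonempty
  have h1 := h.deg hv
  have h2 := dg_lt_card (G := G) hv
  omega

lemma Crit.clq (h : Crit G A) (h4 : A.card = 4) : Clq G A := by
  intro u hu v hv huv
  by_contra hn
  have h1 := h.deg hu
  have h2 := dg_le (G := G) (A := A) (v := u) ((A.erase u).erase v) (fun w hw huw => by
    refine mem_erase.2 ⟨?_, mem_erase.2 ⟨?_, hw⟩⟩
    · rintro rfl; exact hn huw
    · rintro rfl; exact G.irrefl huw)
  rw [card_erase_of_mem (mem_erase.2 ⟨huv.symm, hv⟩), card_erase_of_mem hu] at h2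
  omega

/-- a low vertex with two known neighbours has exactly one more -/
lemma third_nbr {v a b : V} (hd : dg G A v = 3) (ha : a ∈ A) (hb : b ∈ A) (hab : a ≠ b)
    (hva : G.Adj v a) (hvb : G.Adj v b) :
    ∃ c ∈ A, G.Adj v c ∧ c ≠ a ∧ c ≠ b ∧ ∀ u ∈ A, G.Adj v u → u = a ∨ u = b ∨ u = c := by
  have h1 : (((A.filter (G.Adj v)).erase a).erase b).card = 1 := by
    rw [card_erase_of_mem (mem_erase.2 ⟨hab.symm, mem_filter.2 ⟨hb, hvb⟩⟩),
      card_erase_of_mem (mem_filter.2 ⟨ha, hva⟩)]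
    unfold dg at hd
    omega
  obtain ⟨c, hc⟩ := card_eq_one.1 h1
  have hc' : c ∈ ((A.filter (G.Adj v)).erase a).erase b := by rw [hc]; simp
  simp only [mem_erase, mem_filter] at hc'
  refine ⟨c, hc'.2.2.1, hc'.2.2.2, hc'.2.1, hc'.1, fun u hu huv => ?_⟩
  by_contra hn
  push Not at hn
  have : u ∈ ((A.filter (G.Adj v)).erase a).erase b := by
    simp only [mem_erase, mem_filter]
    exact ⟨hn.2.1, hn.1, hu, huv⟩
  rw [hc, mem_singleton] at this
  exact hn.2.2 this

lemma two_more_nbrs {v a : V} (hd : dg G A v = 3) (ha : a ∈ A) (hva : G.Adj v a) :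
    ∃ b ∈ A, ∃ c ∈ A, G.Adj v b ∧ G.Adj v c ∧ b ≠ a ∧ c ≠ a ∧ c ≠ b ∧
      ∀ u ∈ A, G.Adj v u → u = a ∨ u = b ∨ u = c := by
  have h1 : 0 < dg G (A.erase a) v := by
    have := dg_erase (G := G) ha v
    rw [if_pos hva] at this
    omega
  obtain ⟨b, hb, hvb⟩ := dg_pos.1 h1
  obtain ⟨c, hc, h1, h2, h3, h4⟩ :=
    third_nbr hd ha (mem_of_mem_erase hb) (ne_of_mem_erase hb).symm hva hvb
  exact ⟨b, mem_of_mem_erase hb, c, hc, hvb, h1, ne_of_mem_erase hb, h2, h3, h4⟩

lemma nbrs_of_three {v a b c : V} (hd : dg G A v ≤ 3) (ha : a ∈ A) (hb : b ∈ A) (hc : c ∈ A)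
    (hab : a ≠ b) (hac : a ≠ c) (hbc : b ≠ c)
    (hva : G.Adj v a) (hvb : G.Adj v b) (hvc : G.Adj v c) :
    ∀ u ∈ A, G.Adj v u → u = a ∨ u = b ∨ u = c := by
  intro u hu huv
  by_contra hn
  push Not at hn
  have := le_dg (G := G) (A := A) (v := v) {u, a, b, c} (by
    intro x hx
    simp only [mem_insert, mem_singleton] at hx
    rcases hx with rfl | rfl | rfl | rfl <;> assumption) (by
    intro x hx
    simp only [mem_insert, mem_singleton] at hx
    rcases hx with rfl | rfl | rfl | rfl <;> assumption)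
  rw [card_insert_of_notMem (by simp [hn.1, hn.2.1, hn.2.2]),
    card_insert_of_notMem (by simp [hab, hac]), card_pair hbc] at this
  omega

/-- `G` with the extra edge `uv` -/
def plusE (G : SimpleGraph V) (u v : V) : SimpleGraph V := G ⊔ SimpleGraph.edge u v

lemma plusE_adj {u v a b : V} :
    (plusE G u v).Adj a b ↔ G.Adj a b ∨ ((a = u ∧ b = v ∨ a = v ∧ b = u) ∧ a ≠ b) := by
  unfold plusE
  rw [SimpleGraph.sup_adj, SimpleGraph.edge_adj]

lemma plusE_adj_of_ne {u v a b : V} (h1 : a ≠ u) (h2 : a ≠ v) :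
    (plusE G u v).Adj a b ↔ G.Adj a b := by
  rw [plusE_adj]
  simp [h1, h2]

lemma pot_plusE (u v : V) (A : Finset V) : pot G A ≤ pot (plusE G u v) A + 6 := by
  by_cases hu : u ∈ A
  · rw [pot_erase (G := G) hu, pot_erase (G := plusE G u v) hu]
    have h1 : pot G (A.erase u) = pot (plusE G u v) (A.erase u) := by
      refine pot_congr fun a ha b hb => ?_
      rw [plusE_adj]
      have := ne_of_mem_erase ha
      have := ne_of_mem_erase hb
      tauto
    have h2 : dg (plusE G u v) A u ≤ dg G A u + 1 := by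
      refine le_trans (dg_le (insert v (A.filter (G.Adj u))) fun w hw hh => ?_)
        (card_insert_le _ _)
      rw [plusE_adj] at hh
      rcases hh with hh | ⟨⟨-, hh⟩ | ⟨h1, h2⟩, h3⟩
      · exact mem_insert_of_mem (mem_filter.2 ⟨hw, hh⟩)
      · rw [hh]; exact mem_insert_self _ _
      · exact absurd h2.symm h3
    rw [h1]
    omega
  · have h1 : pot G A = pot (plusE G u v) A := by
      refine pot_congr fun a ha b hb => ?_
      rw [plusE_adj]
      have := ne_of_mem_of_not_mem ha hu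
      have := ne_of_mem_of_not_mem hb hu
      tauto
    omega

lemma col_plusE {u v : V} (huv : u ≠ v) (hu : u ∈ A) (hv : v ∈ A) (h : Col (plusE G u v) A) :
    ∃ c, Prop3 G A c ∧ c u ≠ c v := by
  obtain ⟨c, hc⟩ := h
  exact ⟨c, fun a ha b hb hab => hc a ha b hb (plusE_adj.2 (Or.inl hab)),
    hc u hu v hv (plusE_adj.2 (Or.inr ⟨Or.inl ⟨rfl, rfl⟩, huv⟩))⟩

/-- boundary vertices of `R` in `A` -/
def Bd (G : SimpleGraph V) (A R : Finset V) (u : V) : Prop := u ∈ R ∧ ∃ y ∈ A, y ∉ R ∧ G.Adj u y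

lemma Crit.two_bd (h : Crit G A) (hR : R ⊂ A) (h2 : 2 ≤ R.card) (u : V) :
    ∃ v, v ≠ u ∧ Bd G A R v := by
  by_contra hn
  push Not at hn
  obtain ⟨w, hwR, hw⟩ : ∃ w ∈ R, ∀ v, Bd G A R v → v = w := by
    by_cases hu : u ∈ R
    · exact ⟨u, hu, fun v hv => by_contra fun hh => hn v hh hv⟩
    · obtain ⟨w, hw⟩ := card_pos.1 (show 0 < R.card by omega)
      exact ⟨w, hw, fun v hv => absurd hv (hn v (ne_of_mem_of_not_mem hv.1 hu))⟩
  obtain ⟨c, hc⟩ := h.2 R hR
  have hs : insert w (A \ R) ⊂ A := by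
    refine ⟨insert_subset (hR.1 hwR) sdiff_subset, fun hh => ?_⟩
    obtain ⟨z, hz, hzw⟩ := exists_mem_ne (show 1 < R.card by omega) w
    rcases mem_insert.1 (hh (hR.1 hz)) with h1 | h1
    · exact hzw h1
    · exact (mem_sdiff.1 h1).2 hz
  obtain ⟨d, hd⟩ := h.2 _ hs
  apply h.1
  refine ⟨fun x => if x ∈ R then c x else Equiv.swap (d w) (c w) (d x), ?_⟩
  have key : ∀ a ∈ R, ∀ b ∈ A, b ∉ R → G.Adj a b → c a ≠ Equiv.swap (d w) (c w) (d b) := by
    intro a ha b hb hbR hab
    have := hw a ⟨ha, b, hb, hbR, hab⟩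
    subst this
    have h1 := hd a (mem_insert_self _ _) b (mem_insert_of_mem (mem_sdiff.2 ⟨hb, hbR⟩)) hab
    intro h2
    apply h1
    apply (Equiv.swap (d a) (c a)).injective
    rw [← h2, Equiv.swap_apply_left]
  intro a ha b hb hab
  by_cases haR : a ∈ R <;> by_cases hbR : b ∈ R <;> simp only [haR, hbR, if_true, if_false]
  · exact hc a haR b hbR hab
  · exact key a haR b hb hbR hab
  · exact (key b hbR a ha haR hab.symm).symm
  · exact fun hh => hd a (mem_insert_of_mem (mem_sdiff.2 ⟨ha, haR⟩)) b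
      (mem_insert_of_mem (mem_sdiff.2 ⟨hb, hbR⟩)) hab ((Equiv.swap _ _).injective hh)

lemma dg_of_not_bd {u : V} (hR : R ⊆ A) (hu : u ∈ R) (h : ¬ Bd G A R u) :
    dg G A u = dg G R u := by
  rw [dg_sdiff hR, dg_eq_zero.2 fun y hy hh =>
    h ⟨hu, y, (mem_sdiff.1 hy).1, (mem_sdiff.1 hy).2, hh⟩, add_zero]

/-- a diamond has potential at most 10 -/
lemma pot_diamond {a b s t : V} (hab : G.Adj a b) (has : G.Adj a s) (hat : G.Adj a t)
    (hbs : G.Adj b s) (hbt : G.Adj b t) (hst : s ≠ t) :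
    pot G {a, b, s, t} ≤ 10 ∧ ({a, b, s, t} : Finset V).card = 4 := by
  have h1 : b ∉ ({s, t} : Finset V) := by simp [hbs.ne, hbt.ne]
  have h2 : a ∉ ({b, s, t} : Finset V) := by simp [hab.ne, has.ne, hat.ne]
  have h3 : s ∉ ({t} : Finset V) := by simp [hst]
  refine ⟨?_, by rw [card_insert_of_notMem h2, card_insert_of_notMem h1, card_pair hst]⟩
  rw [pot_insert h2, pot_insert h1, pot_insert h3, pot_singleton, dg_insert h1, dg_insert h3,
    dg_insert h3, dg_singleton, dg_singleton, dg_singleton]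
  simp only [hab, has, hat, hbs, hbt, if_true]
  split_ifs <;> simp

lemma not_col_K4 {a b s t : V} (hab : G.Adj a b) (has : G.Adj a s) (hat : G.Adj a t)
    (hbs : G.Adj b s) (hbt : G.Adj b t) (hst : G.Adj s t) : ¬ Col G {a, b, s, t} := by
  rintro ⟨c, hc⟩
  have h1 := hc a (by simp) b (by simp) hab
  have h2 := hc a (by simp) s (by simp) has
  have h3 := hc a (by simp) t (by simp) hat
  have h4 := hc b (by simp) s (by simp) hbs
  have h5 := hc b (by simp) t (by simp) hbt
  have h6 := hc s (by simp) t (by simp) hst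
  have := fin3_four (c a) (c b) (c s) (c t)
  tauto

/-- discharging -/
lemma pot_nonpos (hd : ∀ v ∈ A, 3 ≤ dg G A v)
    (h : ∀ x ∈ A, ∀ y ∈ A, ∀ z ∈ A, dg G A x = 3 → dg G A y = 3 → dg G A z = 3 →
      G.Adj x y → G.Adj x z → y = z) : pot G A ≤ 0 := by
  set L := A.filter (fun v => dg G A v = 3) with hL
  have hLA : L ⊆ A := filter_subset _ _
  have h1 : 2 * L.card ≤ ee G L (A \ L) := by
    unfold ee
    rw [mul_comm, ← smul_eq_mul, ← sum_const]
    refine sum_le_sum fun x hx => ?_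
    have hx' := mem_filter.1 hx
    have h2 := dg_sdiff (G := G) hLA x
    have h3 : dg G L x ≤ 1 := by
      unfold dg
      refine card_le_one.2 fun y hy z hz => ?_
      simp only [hL, mem_filter] at hy hz
      exact h x hx'.1 y hy.1.1 z hz.1.1 hx'.2 hy.1.2 hz.1.2 hy.2 hz.2
    omega
  have h2 : ee G (A \ L) L ≤ ee G (A \ L) A := sum_le_sum fun v _ => dg_mono hLA v
  have h3 : 4 * (A \ L).card ≤ ee G (A \ L) A := by
    unfold ee
    rw [mul_comm, ← smul_eq_mul, ← sum_const]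
    refine sum_le_sum fun x hx => ?_
    have hx' := mem_sdiff.1 hx
    have := hd x hx'.1
    have : dg G A x ≠ 3 := fun hh => hx'.2 (mem_filter.2 ⟨hx'.1, hh⟩)
    omega
  have h4 : ee G L A = 3 * L.card := by
    unfold ee
    rw [mul_comm, ← smul_eq_mul, ← sum_const]
    exact sum_congr rfl fun x hx => (mem_filter.1 hx).2
  have h5 : ee G A A = ee G L A + ee G (A \ L) A := by
    rw [← ee_union_left disjoint_sdiff, union_sdiff_of_subset hLA]
  have h6 := card_sdiff_add_card_eq_card hLA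
  rw [ee_comm] at h1
  unfold pot
  omega

end

end Pool.Agent.P.MP_e94690_lc
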