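import Pool.Agent.P.MP_e94690_lc.Basic

set_option autoImplicit false

namespace Pool.Agent.P.MP_e94690_lc

open Finset

noncomputable section
open Classical

variable {V : Type} {G : SimpleGraph V} {A R : Finset V}

/-- contraction of the colour classes of `R` onto a clique -/
def contr (G : SimpleGraph V) (R : Finset V) (φ j : V → Fin 3) : SimpleGraph V where
  Adj a b := a ≠ b ∧ ((a ∉ R ∧ b ∉ R ∧ G.Adj a b) ∨ (a ∈ R ∧ b ∈ R) ∨
    (a ∉ R ∧ b ∈ R ∧ ∃ u ∈ R, G.Adj a u ∧ φ u = j b) ∨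
    (b ∉ R ∧ a ∈ R ∧ ∃ u ∈ R, G.Adj b u ∧ φ u = j a))
  symm := ⟨fun a b h => by
    refine ⟨h.1.symm, ?_⟩
    rcases h.2 with h | h | h | h
    · exact Or.inl ⟨h.2.1, h.1, h.2.2.symm⟩
    · exact Or.inr (Or.inl ⟨h.2, h.1⟩)
    · exact Or.inr (Or.inr (Or.inr h))
    · exact Or.inr (Or.inr (Or.inl h))⟩
  loopless := ⟨fun a h => h.1 rfl⟩

lemma ext (hA : Crit G A) (hR : R ⊆ A) (h3 : 3 ≤ R.card) {φ : V → Fin 3} (hφ : Prop3 G R φ) :
    ∃ (H : SimpleGraph V) (X Y : Finset V) (l : ℕ) (i : Fin 3),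
      X ⊆ R ∧ Y ⊆ A \ R ∧ Y.Nonempty ∧ X.Nonempty ∧ X.card ≤ 3 ∧ Crit H (X ∪ Y) ∧ Clq H X ∧
      (∀ a ∉ R, ∀ b ∉ R, H.Adj a b ↔ G.Adj a b) ∧
      pot G (R ∪ Y) = pot G R + pot H (X ∪ Y) - pot H X - 6 * (l : ℤ) ∧
      (l = 0 → ∀ y ∈ Y, dg H X y = dg G R y ∧ dg H (X ∪ Y) y = dg G (R ∪ Y) y ∧
        (X.card = 1 → ∀ u ∈ R, G.Adj y u → φ u = i)) := by
  obtain ⟨r, hr⟩ := Function.Embedding.exists_of_card_le_finset (α := Fin 3) (s := R)
    (by simpa using h3)
  have hrR : ∀ i, r i ∈ R := fun i => hr ⟨i, rfl⟩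
  set j : V → Fin 3 := Function.invFun r with hj
  have hjr : ∀ i, j (r i) = i := Function.leftInverse_invFun r.injective
  set H := contr G R φ j with hH
  have hout : ∀ a ∉ R, ∀ b ∉ R, H.Adj a b ↔ G.Adj a b := by
    intro a ha b hb
    constructor
    · rintro ⟨-, h | h | h | h⟩
      · exact h.2.2
      · exact absurd h.1 ha
      · exact absurd h.2.1 hb
      · exact absurd h.2.1 ha
    · exact fun h => ⟨h.ne, Or.inl ⟨ha, hb, h⟩⟩
  have hmix : ∀ a ∉ R, ∀ b ∈ R, H.Adj a b ↔ ∃ u ∈ R, G.Adj a u ∧ φ u = j b := by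
    intro a ha b hb
    constructor
    · rintro ⟨-, h | h | h | h⟩
      · exact absurd hb h.2.1
      · exact absurd h.1 ha
      · exact h.2.2
      · exact absurd hb h.1
    · exact fun h => ⟨(ne_of_mem_of_not_mem hb ha).symm, Or.inr (Or.inr (Or.inl ⟨ha, hb, h⟩))⟩
  have hin : ∀ a ∈ R, ∀ b ∈ R, a ≠ b → H.Adj a b := fun a ha b hb hab =>
    ⟨hab, Or.inr (Or.inl ⟨ha, hb⟩)⟩
  have hnc : ¬ Col H (univ.image r ∪ (A \ R)) := by
    rintro ⟨c, hc⟩
    apply hA.1
    refine ⟨fun x => if x ∈ R then c (r (φ x)) else c x, ?_⟩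
    have m1 : ∀ i, r i ∈ univ.image r ∪ (A \ R) := fun i =>
      mem_union_left _ (mem_image_of_mem _ (mem_univ _))
    have m2 : ∀ a ∈ A, a ∉ R → a ∈ univ.image r ∪ (A \ R) := fun a ha h =>
      mem_union_right _ (mem_sdiff.2 ⟨ha, h⟩)
    have key : ∀ a ∈ A, a ∉ R → ∀ b ∈ R, G.Adj a b → c a ≠ c (r (φ b)) := by
      intro a ha haR b hb hab
      exact hc a (m2 a ha haR) _ (m1 _) ((hmix a haR _ (hrR _)).2 ⟨b, hb, hab, (hjr _).symm⟩)
    intro a ha b hb hab
    by_cases haR : a ∈ R <;> by_cases hbR : b ∈ R <;> simp only [haR, hbR, if_true, if_false]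
    · exact hc _ (m1 _) _ (m1 _) (hin _ (hrR _) _ (hrR _)
        fun hh => hφ a haR b hbR hab (r.injective hh))
    · exact (key b hb hbR a haR hab.symm).symm
    · exact key a ha haR b hbR hab
    · exact hc a (m2 a ha haR) b (m2 b hb hbR) ((hout a haR b hbR).2 hab)
  obtain ⟨K, hK, hKc⟩ := exists_crit hnc
  set X := K ∩ R with hX
  set Y := K \ R with hY
  have hXY : X ∪ Y = K := by rw [union_comm]; exact sdiff_union_inter K R
  have hXR : X ⊆ R := inter_subset_right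
  have hYR : ∀ y ∈ Y, y ∉ R := fun y hy => (mem_sdiff.1 hy).2
  have hYA : Y ⊆ A \ R := by
    intro y hy
    rcases mem_union.1 (hK (mem_sdiff.1 hy).1) with h | h
    · obtain ⟨i, -, rfl⟩ := mem_image.1 h
      exact absurd (hrR i) (hYR _ hy)
    · exact h
  have hXr : X ⊆ univ.image r := by
    intro x hx
    rcases mem_union.1 (hK (mem_inter.1 hx).1) with h | h
    · exact h
    · exact absurd (hXR hx) (mem_sdiff.1 h).2
  have hX3 : X.card ≤ 3 := le_trans (card_le_card hXr) (le_trans card_image_le (by simp))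
  have hdXY : Disjoint X Y := disjoint_left.2 fun a ha hb => hYR a hb (hXR ha)
  have hdRY : Disjoint R Y := disjoint_left.2 fun a ha hb => hYR a hb ha
  have hYne : Y.Nonempty := by
    rw [nonempty_iff_ne_empty]
    intro h
    have := hKc.four_le
    rw [← hXY, h, union_empty] at this
    omega
  have hXne : X.Nonempty := by
    rw [nonempty_iff_ne_empty]
    intro h
    rw [h, empty_union] at hXY
    apply hKc.1
    rw [← hXY]
    have h1 : A \ R ⊂ A := sdiff_ssubset hR (card_pos.1 (by omega))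
    exact ((hA.2 _ h1).mono hYA).of_le fun u hu v hv => (hout u (hYR u hu) v (hYR v hv)).1
  have hle : ∀ y ∉ R, dg H X y ≤ dg G R y := by
    intro y hy
    unfold dg
    refine le_trans (card_le_card (t := (R.filter (G.Adj y)).image (fun u => r (φ u))) ?_)
      card_image_le
    intro x hx
    obtain ⟨hx1, hx2⟩ := mem_filter.1 hx
    obtain ⟨u, hu, h1, h2⟩ := (hmix y hy x (hXR hx1)).1 hx2
    obtain ⟨i, -, rfl⟩ := mem_image.1 (hXr hx1)
    exact mem_image.2 ⟨u, mem_filter.2 ⟨hu, h1⟩, by rw [h2, hjr]⟩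
  have hee : ee H Y X ≤ ee G Y R := sum_le_sum fun y hy => hle y (hYR y hy)
  obtain ⟨x0, hx0⟩ := hXne
  refine ⟨H, X, Y, ee G Y R - ee H Y X, j x0, hXR, hYA, hYne, ⟨x0, hx0⟩, hX3, hXY ▸ hKc,
    fun a ha b hb => hin a (hXR ha) b (hXR hb), hout, ?_, ?_⟩
  · rw [pot_union hdRY, pot_union hdXY, ee_comm R, ee_comm X,
      pot_congr (G := H) (H := G) (A := Y) fun u hu v hv => hout u (hYR u hu) v (hYR v hv)]
    push_cast [hee]
    ring
  · intro hl y hy
    have h0 : dg H X y = dg G R y := by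
      have h1 : ee H Y X = ee G Y R := by omega
      exact (sum_eq_sum_iff_of_le fun y hy => hle y (hYR y hy)).1 h1 y hy
    refine ⟨h0, ?_, ?_⟩
    · rw [dg_union hdXY, dg_union hdRY, h0,
        dg_congr (G := H) (H := G) fun u hu => hout y (hYR y hy) u (hYR u hu)]
    · intro h1 u hu hyu
      have h2 : 0 < dg H X y := by rw [h0]; exact dg_pos.2 ⟨u, hu, hyu⟩
      obtain ⟨x, hx, hyx⟩ := dg_pos.1 h2
      obtain ⟨u', hu', h4, h5⟩ := (hmix y (hYR y hy) x (hXR hx)).1 hyx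
      have h6 : dg G R y ≤ 1 := by rw [← h0, ← h1]; exact dg_le_card y
      have h7 : u = u' := card_le_one.1 h6 u (mem_filter.2 ⟨hu, hyu⟩) u' (mem_filter.2 ⟨hu', h4⟩)
      rw [h7, h5, card_le_one.1 h1.le x hx x0 hx0]

/-- `v` glued onto `u` -/
def glued (G : SimpleGraph V) (u v : V) : SimpleGraph V where
  Adj a b := a ≠ b ∧ (G.Adj a b ∨ (a = u ∧ G.Adj v b) ∨ (b = u ∧ G.Adj v a))
  symm := ⟨fun a b h => by
    refine ⟨h.1.symm, ?_⟩
    rcases h.2 with h | h | h
    · exact Or.inl h.symm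
    · exact Or.inr (Or.inr h)
    · exact Or.inr (Or.inl h)⟩
  loopless := ⟨fun a h => h.1 rfl⟩

lemma glue (hA : Crit G A) {x y u v : V} (hx : x ∈ A) (hy : y ∈ A) (hu : u ∈ A) (hv : v ∈ A)
    (hxy : G.Adj x y) (hxu : G.Adj x u) (hxv : G.Adj x v) (huv : u ≠ v) (hyu : y ≠ u)
    (hyv : y ≠ v) (hn : ¬ G.Adj u v) (hdx : dg G A x = 3) (hdy : dg G A y = 3) :
    ∃ (H : SimpleGraph V) (K : Finset V), K ⊆ A ∧ u ∈ K ∧ x ∉ K ∧ y ∉ K ∧ v ∉ K ∧ Crit H K ∧
      (∀ a, a ≠ u → ∀ b, b ≠ u → (H.Adj a b ↔ G.Adj a b)) ∧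
      (∀ a, a ≠ u → (H.Adj a u ↔ G.Adj a u ∨ G.Adj a v)) ∧
      pot G (insert x (insert v K)) ≤ pot H K + 8 ∧
      ∀ a ∈ K, G.Adj a u → G.Adj a v → pot G (insert x (insert v K)) ≤ pot H K + 2 := by
  set H := glued G u v with hH
  have h1 : ∀ a, a ≠ u → ∀ b, b ≠ u → (H.Adj a b ↔ G.Adj a b) := by
    intro a ha b hb
    constructor
    · rintro ⟨-, h | h | h⟩
      · exact h
      · exact absurd h.1 ha
      · exact absurd h.1 hb
    · exact fun h => ⟨h.ne, Or.inl h⟩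
  have h2 : ∀ a, a ≠ u → (H.Adj a u ↔ G.Adj a u ∨ G.Adj a v) := by
    intro a ha
    constructor
    · rintro ⟨-, h | h | h⟩
      · exact Or.inl h
      · exact absurd h.1 ha
      · exact Or.inr h.2.symm
    · rintro (h | h)
      · exact ⟨ha, Or.inl h⟩
      · exact ⟨ha, Or.inr (Or.inr ⟨rfl, h.symm⟩)⟩
  have hGH : ∀ a b, G.Adj a b → H.Adj a b := fun a b h => ⟨h.ne, Or.inl h⟩
  set B := ((A.erase x).erase y).erase v with hB
  have hmB : ∀ a, a ∈ B ↔ a ≠ v ∧ a ≠ y ∧ a ≠ x ∧ a ∈ A := by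
    intro a; simp only [hB, mem_erase]
  have huB : u ∈ B := (hmB u).2 ⟨huv, hyu.symm, hxu.ne.symm, hu⟩
  have hNx := nbrs_of_three hdx.le hy hu hv hyu hyv huv hxy hxu hxv
  have hnc : ¬ Col H B := by
    rintro ⟨c, hc⟩
    have hc0 : Prop3 G B c := fun a ha b hb hab => hc a ha b hb (hGH a b hab)
    have hc1 := hc0.insert (v := v) (fun h => ((hmB v).1 h).1 rfl) (c u) (by
      intro a ha hva
      have hau : a ≠ u := by rintro rfl; exact hn hva.symm
      exact hc a ha u huB ((h2 a hau).2 (Or.inr hva.symm)))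
    have e1 : insert v B = (A.erase x).erase y :=
      insert_erase (mem_erase.2 ⟨hyv.symm, mem_erase.2 ⟨hxv.ne.symm, hv⟩⟩)
    rw [e1] at hc1
    set c1 := Function.update c v (c u) with hc1d
    have huv1 : c1 v = c1 u := by
      rw [hc1d, Function.update_self, Function.update_of_ne huv]
    have hdy2 : dg G ((A.erase x).erase y) y ≤ 2 := by
      have := dg_erase (G := G) hx y
      rw [if_pos hxy.symm] at this
      have := dg_mono (G := G) (erase_subset y (A.erase x)) y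
      omega
    have h3 : ((((A.erase x).erase y).filter (G.Adj y)).image c1).card <
        (univ : Finset (Fin 3)).card := by
      have := card_image_le (s := ((A.erase x).erase y).filter (G.Adj y)) (f := c1)
      unfold dg at hdy2
      simp only [card_univ, Fintype.card_fin]
      omega
    obtain ⟨i, -, hi⟩ := exists_mem_notMem_of_card_lt_card h3
    have hc2 := hc1.insert (v := y) (notMem_erase _ _) i fun a ha hya hci =>
      hi (mem_image.2 ⟨a, mem_filter.2 ⟨ha, hya⟩, hci⟩)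
    rw [insert_erase (mem_erase.2 ⟨hxy.ne.symm, hy⟩)] at hc2
    obtain ⟨k, hk1, hk2⟩ := fin3_avoid i (c1 u)
    have hc3 := hc2.insert (v := x) (notMem_erase _ _) k (by
      intro a ha hxa
      rcases hNx a (mem_of_mem_erase ha) hxa with rfl | rfl | rfl
      · rw [Function.update_self]; exact hk1.symm
      · rw [Function.update_of_ne hyu.symm]; exact hk2.symm
      · rw [Function.update_of_ne hyv.symm, huv1]; exact hk2.symm)
    rw [insert_erase hx] at hc3
    exact hA.1 ⟨_, hc3⟩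
  obtain ⟨K, hK, hKc⟩ := exists_crit hnc
  have hKA : K ⊆ A := fun a ha => ((hmB a).1 (hK ha)).2.2.2
  have hxK : x ∉ K := fun h => ((hmB _).1 (hK h)).2.2.1 rfl
  have hyK : y ∉ K := fun h => ((hmB _).1 (hK h)).2.1 rfl
  have hvK : v ∉ K := fun h => ((hmB _).1 (hK h)).1 rfl
  have huK : u ∈ K := by
    by_contra h
    apply hKc.1
    refine (hA.2 K ⟨hKA, fun hh => hxK (hh hx)⟩).of_le fun a ha b hb =>
      (h1 a (ne_of_mem_of_not_mem ha h) b (ne_of_mem_of_not_mem hb h)).1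
  have hxK' : x ∉ insert v K := by
    rw [mem_insert]; exact fun h => h.elim hxv.ne hxK
  have p1 : pot G (insert x (insert v K)) =
      pot H K + 20 - 6 * (dg G (insert v K) x : ℤ) - 6 * (dg G K v : ℤ) - 6 * (dg G K u : ℤ)
        + 6 * (dg H K u : ℤ) := by
    rw [pot_insert hxK', pot_insert hvK, pot_erase (G := G) huK, pot_erase (G := H) huK,
      pot_congr (G := G) (H := H) (A := K.erase u) fun a ha b hb =>
        (h1 a (ne_of_mem_erase ha) b (ne_of_mem_erase hb)).symm]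
    ring
  have p2 : 2 ≤ dg G (insert v K) x := by
    have := le_dg (G := G) (A := insert v K) (v := x) {u, v}
      (insert_subset (mem_insert_of_mem huK) (singleton_subset_iff.2 (mem_insert_self _ _)))
      (by intro a ha; rcases mem_insert.1 ha with rfl | ha
          · exact hxu
          · rw [mem_singleton.1 ha]; exact hxv)
    rwa [card_pair huv] at this
  have p3 : dg H K u + (K.filter (G.Adj u) ∩ K.filter (G.Adj v)).card ≤ dg G K u + dg G K v := by
    unfold dg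
    rw [← card_union_add_card_inter (K.filter (G.Adj u))]
    refine Nat.add_le_add_right (card_le_card fun a ha => ?_) _
    obtain ⟨ha1, ha2⟩ := mem_filter.1 ha
    rcases (h2 a ha2.ne.symm).1 ha2.symm with h | h
    · exact mem_union_left _ (mem_filter.2 ⟨ha1, h.symm⟩)
    · exact mem_union_right _ (mem_filter.2 ⟨ha1, h.symm⟩)
  refine ⟨H, K, hKA, huK, hxK, hyK, hvK, hKc, h1, h2, by omega, fun a ha hau hav => ?_⟩
  have : 0 < (K.filter (G.Adj u) ∩ K.filter (G.Adj v)).card :=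
    card_pos.2 ⟨a, mem_inter.2 ⟨mem_filter.2 ⟨ha, hau.symm⟩, mem_filter.2 ⟨ha, hav.symm⟩⟩⟩
  omega

end

end Pool.Agent.P.MP_e94690_lc
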