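import Pool.Agent.P.MP_e94690_lc.Basic

set_option autoImplicit false

namespace Pool.Agent.P.MP_e94690_lc

open Finset

noncomputable section
open Classical

variable {V : Type} {G : SimpleGraph V} {A : Finset V}

/-- list colouring from an orientation of the edges at an independent set -/
lemma list_col (W : V → Prop) (O : V → V → Prop) : ∀ (H : Finset V) (L : V → Finset (Fin 3)),
    (∀ u ∈ H, ∀ v ∈ H, W u → W v → ¬ G.Adj u v) →
    (∀ u ∈ H, ∀ v ∈ H, G.Adj u v → O u v ∨ O v u) →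
    (∀ u ∈ H, ∀ v ∈ H, G.Adj u v → ¬ W u → ¬ W v → O u v) →
    (∀ v ∈ H, (H.filter (O v)).card < (L v).card) →
    ∃ c, (∀ v ∈ H, c v ∈ L v) ∧ Prop3 G H c := by
  intro H
  induction H using Finset.strongInduction with
  | H H ih =>
  intro L h1 h2 h3 h4
  have step : ∀ B ⊂ H, ∀ L' : V → Finset (Fin 3),
      (∀ v ∈ B, (L v).card ≤ (L' v).card ∨
        ((L v).card ≤ (L' v).card + 1 ∧ ∃ u ∈ H, u ∉ B ∧ O v u)) →
      ∃ c, (∀ v ∈ B, c v ∈ L' v) ∧ Prop3 G B c := by
    intro B hB L' hL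
    refine ih B hB L' (fun u hu v hv => h1 u (hB.1 hu) v (hB.1 hv))
      (fun u hu v hv => h2 u (hB.1 hu) v (hB.1 hv))
      (fun u hu v hv => h3 u (hB.1 hu) v (hB.1 hv)) fun v hv => ?_
    have h5 := h4 v (hB.1 hv)
    rcases hL v hv with h | ⟨h, u, hu, huB, hO⟩
    · have := card_le_card (filter_subset_filter (O v) hB.1)
      omega
    · have : (B.filter (O v)).card < (H.filter (O v)).card :=
        card_lt_card ⟨filter_subset_filter _ hB.1, fun hh =>
          huB (mem_filter.1 (hh (mem_filter.2 ⟨hu, hO⟩))).1⟩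
      omega
  by_cases hc : ∃ v ∈ H, ¬ W v ∧ ∃ i ∈ L v, ∀ u ∈ H, W u → O v u → i ∉ L u
  · obtain ⟨v, hv, hW, i, hi, hO⟩ := hc
    obtain ⟨c, hc1, hc2⟩ := step _ (erase_ssubset hv)
      (fun u => if G.Adj v u then (L u).erase i else L u) (by
        intro u hu
        have hu' := mem_of_mem_erase hu
        by_cases e : G.Adj v u
        · simp only [e, if_true]
          by_cases hiu : i ∈ L u
          · refine Or.inr ⟨by rw [card_erase_add_one hiu], v, hv, notMem_erase _ _, ?_⟩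
            by_cases hWu : W u
            · exact (h2 v hv u hu' e).resolve_left fun h => hO u hu' hWu h hiu
            · exact h3 u hu' v hv e.symm hWu hW
          · exact Or.inl (by rw [erase_eq_of_notMem hiu])
        · simp only [e, if_false]
          exact Or.inl le_rfl)
    have h5 := hc2.insert (notMem_erase v H) i (by
      intro u hu e
      have := hc1 u hu
      simp only [e, if_true] at this
      exact ne_of_mem_erase this)
    rw [insert_erase hv] at h5
    refine ⟨_, fun u hu => ?_, h5⟩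
    by_cases e : u = v
    · rw [e, Function.update_self]; exact hi
    · rw [Function.update_of_ne e]
      have := hc1 u (mem_erase.2 ⟨e, hu⟩)
      split_ifs at this
      · exact mem_of_mem_erase this
      · exact this
  push Not at hc
  rcases H.eq_empty_or_nonempty with rfl | ⟨v, hv⟩
  · exact ⟨fun _ => 0, by simp, fun u hu => by simp at hu⟩
  obtain ⟨w, hw, hWw, i, hi⟩ : ∃ w ∈ H, W w ∧ ∃ i, i ∈ L w := by
    obtain ⟨i, hi⟩ := card_pos.1 (lt_of_le_of_lt (Nat.zero_le _) (h4 v hv))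
    by_cases hW : W v
    · exact ⟨v, hv, hW, i, hi⟩
    · obtain ⟨u, hu, h5, -, h6⟩ := hc v hv hW i hi
      exact ⟨u, hu, h5, i, h6⟩
  set B := H.filter (fun u => ¬ (W u ∧ i ∈ L u)) with hB
  obtain ⟨c, hc1, hc2⟩ := step B ⟨filter_subset _ _, fun h => (mem_filter.1 (h hw)).2 ⟨hWw, hi⟩⟩
    (fun u => (L u).erase i) (by
      intro u hu
      obtain ⟨hu1, hu2⟩ := mem_filter.1 hu
      by_cases hiu : i ∈ L u
      · obtain ⟨z, hz, h5, h6, h7⟩ := hc u hu1 (fun h => hu2 ⟨h, hiu⟩) i hiu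
        exact Or.inr ⟨by rw [card_erase_add_one hiu], z, hz,
          fun h => (mem_filter.1 h).2 ⟨h5, h7⟩, h6⟩
      · exact Or.inl (by rw [erase_eq_of_notMem hiu]))
  have hn : ∀ u ∈ H, u ∉ B → W u ∧ i ∈ L u := fun u hu h => by
    by_contra hh
    exact h (mem_filter.2 ⟨hu, hh⟩)
  refine ⟨fun u => if u ∈ B then c u else i, fun u hu => ?_, fun a ha b hb e => ?_⟩
  · by_cases e : u ∈ B <;> simp only [e, if_true, if_false]
    · exact mem_of_mem_erase (hc1 u e)
    · exact (hn u hu e).2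
  · by_cases e1 : a ∈ B <;> by_cases e2 : b ∈ B <;> simp only [e1, e2, if_true, if_false]
    · exact hc2 a e1 b e2 e
    · exact ne_of_mem_erase (hc1 a e1)
    · exact (ne_of_mem_erase (hc1 b e2)).symm
    · exact absurd e (h1 a ha b hb (hn a ha e1).1 (hn b hb e2).1)

theorem pot_pos (hA : Crit G A) (h4 : ∀ v ∈ A, dg G A v ≤ 4)
    (hW : ∀ u ∈ A, ∀ v ∈ A, dg G A u = 4 → dg G A v = 4 → ¬ G.Adj u v) : 0 < pot G A := by
  by_contra hp
  set L := A.filter (fun v => dg G A v = 3) with hL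
  set W := A.filter (fun v => dg G A v = 4) with hWd
  have mL : ∀ v, v ∈ L ↔ v ∈ A ∧ dg G A v = 3 := fun v => mem_filter
  have mW : ∀ v, v ∈ W ↔ v ∈ A ∧ dg G A v = 4 := fun v => mem_filter
  have LW : ∀ v ∈ A, v ∈ L ∨ v ∈ W := fun v hv => by
    have := hA.deg hv
    have := h4 v hv
    rw [mL, mW]
    have : dg G A v = 3 ∨ dg G A v = 4 := by omega
    tauto
  have nLW : ∀ v ∈ L, v ∉ W := fun v h1 h2 => by
    have := ((mL v).1 h1).2
    have := ((mW v).1 h2).2
    omega
  have WL : ∀ w ∈ W, ∀ v ∈ A, G.Adj w v → v ∈ L := fun w hw v hv e =>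
    (LW v hv).resolve_right fun h => hW w ((mW w).1 hw).1 v hv ((mW w).1 hw).2 ((mW v).1 h).2 e
  have Wn : ∀ w ∈ W, ∃ v ∈ L, G.Adj w v := fun w hw => by
    obtain ⟨v, hv, e⟩ := dg_pos.1 (show 0 < dg G A w by rw [((mW w).1 hw).2]; norm_num)
    exact ⟨v, WL w hw v hv e, e⟩
  have hAu : A = L ∪ W := Subset.antisymm (fun v hv => mem_union.2 (LW v hv))
    (union_subset (filter_subset _ _) (filter_subset _ _))
  have hdis : Disjoint L W := disjoint_left.2 nLW
  have hlw : L.card ≤ 2 * W.card := by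
    have e1 : ee G L A = 3 * L.card := by
      unfold ee
      rw [mul_comm, ← smul_eq_mul, ← sum_const]
      exact sum_congr rfl fun x hx => ((mL x).1 hx).2
    have e2 : ee G W A = 4 * W.card := by
      unfold ee
      rw [mul_comm, ← smul_eq_mul, ← sum_const]
      exact sum_congr rfl fun x hx => ((mW x).1 hx).2
    have e3 : ee G (L ∪ W) A = ee G L A + ee G W A := ee_union_left hdis A
    have e4 := card_union_of_disjoint hdis
    rw [← hAu] at e3 e4
    unfold pot at hp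
    omega
  set N : Finset V → Finset V := fun X => W.filter (fun w => ∃ v ∈ X, G.Adj w v) with hN
  have mN : ∀ X w, w ∈ N X ↔ w ∈ W ∧ ∃ v ∈ X, G.Adj w v := fun X w => mem_filter
  obtain ⟨X, hX, hXL, hmax⟩ : ∃ X ⊆ L, X ≠ L ∧
      ∀ Z ⊆ L, (Z.card : ℤ) - 2 * (N Z).card ≤ (X.card : ℤ) - 2 * (N X).card := by
    obtain ⟨X, hX, hmax⟩ := exists_max_image L.powerset
      (fun Z => (Z.card : ℤ) - 2 * (N Z).card) ⟨∅, empty_mem_powerset _⟩
    by_cases h : X = L
    · have hLne : L.Nonempty := by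
        obtain ⟨v, hv⟩ := hA.nonempty
        rcases LW v hv with h | h
        · exact ⟨v, h⟩
        · obtain ⟨u, hu, -⟩ := Wn v h
          exact ⟨u, hu⟩
      refine ⟨∅, empty_subset _, hLne.ne_empty.symm, fun Z hZ => ?_⟩
      have h1 := hmax Z (mem_powerset.2 hZ)
      have h2 : N L = W := filter_true_of_mem Wn
      have h3 : N ∅ = ∅ := filter_false_of_mem (by simp)
      rw [h, h2] at h1
      rw [h3]
      simp only [card_empty]
      omega
    · exact ⟨X, mem_powerset.1 hX, h, fun Z hZ => hmax Z (mem_powerset.2 hZ)⟩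
  obtain ⟨f, hf, hft⟩ := (all_card_le_biUnion_card_iff_exists_injective
    (fun v : {v // v ∈ L \ X} =>
      ((W \ N X).filter (G.Adj v.1)) ×ˢ (univ : Finset (Fin 2)))).1 (by
      intro s
      set Z := s.image Subtype.val with hZ
      have hZc : Z.card = s.card := card_image_of_injective _ Subtype.val_injective
      have hZL : ∀ z ∈ Z, z ∈ L ∧ z ∉ X := fun z hz => by
        obtain ⟨v, -, rfl⟩ := mem_image.1 hz
        exact mem_sdiff.1 v.2
      have h1 := hmax (X ∪ Z) (union_subset hX fun z hz => (hZL z hz).1)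
      rw [card_union_of_disjoint (disjoint_left.2 fun a h1 h2 => (hZL a h2).2 h1)] at h1
      have h2 : N X ⊆ N (X ∪ Z) := fun w hw => by
        obtain ⟨h1, v, hv, e⟩ := (mN _ _).1 hw
        exact (mN _ _).2 ⟨h1, v, mem_union_left _ hv, e⟩
      have h3 := card_sdiff_add_card_eq_card h2
      refine le_trans ?_ (card_le_card (s := (N (X ∪ Z) \ N X) ×ˢ (univ : Finset (Fin 2))) ?_)
      · rw [card_product, card_univ, Fintype.card_fin]
        omega
      · rintro ⟨w, i⟩ hw
        obtain ⟨h4, h5⟩ := mem_sdiff.1 (mem_product.1 hw).1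
        obtain ⟨h6, v, hv, e⟩ := (mN _ _).1 h4
        have h7 := (mem_union.1 hv).resolve_left fun h => h5 ((mN _ _).2 ⟨h6, v, h, e⟩)
        obtain ⟨v', hv', rfl⟩ := mem_image.1 h7
        exact mem_biUnion.2 ⟨v', hv', mem_product.2
          ⟨mem_filter.2 ⟨mem_sdiff.2 ⟨h6, h5⟩, e.symm⟩, mem_univ _⟩⟩)
  set par : V → V := fun v => if h : v ∈ L \ X then (f ⟨v, h⟩).1 else v with hpar
  have hp1 : ∀ v ∈ L \ X, par v ∈ W \ N X ∧ G.Adj v (par v) := fun v hv => by
    have := mem_filter.1 (mem_product.1 (hft ⟨v, hv⟩)).1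
    simpa only [hpar, hv, dite_true] using this
  set H := (L \ X) ∪ (W \ N X) with hH
  have hHA : H ⊆ A := union_subset (sdiff_subset.trans (filter_subset _ _))
    (sdiff_subset.trans (filter_subset _ _))
  have hHL : ∀ v ∈ H, v ∉ W → v ∈ L \ X := fun v hv h =>
    (mem_union.1 hv).resolve_right fun hh => h (mem_sdiff.1 hh).1
  have hHW : ∀ v ∈ H, v ∈ W → v ∈ W \ N X := fun v hv h =>
    (mem_union.1 hv).resolve_left fun hh => nLW v (mem_sdiff.1 hh).1 h
  have hHne : H.Nonempty := by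
    obtain ⟨v, hv, hvX⟩ := exists_of_ssubset (Finset.ssubset_iff_subset_ne.2 ⟨hX, hXL⟩)
    exact ⟨v, mem_union_left _ (mem_sdiff.2 ⟨hv, hvX⟩)⟩
  obtain ⟨c, hc⟩ := hA.2 _ (sdiff_ssubset hHA hHne)
  obtain ⟨O, hO⟩ : ∃ O : V → V → Prop,
      ∀ u v, O u v ↔ G.Adj u v ∧ (u ∈ W → par v = u) ∧ (u ∉ W → par u ≠ v) :=
    ⟨_, fun _ _ => Iff.rfl⟩
  obtain ⟨d, hd1, hd2⟩ := list_col (G := G) (· ∈ W) O H
    (fun v => univ \ ((A \ H).filter (G.Adj v)).image c)
    (fun u hu v hv h1 h2 => hW u (hHA hu) v (hHA hv) ((mW u).1 h1).2 ((mW v).1 h2).2)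
    (by
      intro u hu v hv e
      rw [hO, hO]
      by_cases h1 : u ∈ W
      · have h2 := nLW v (WL u h1 v (hHA hv) e)
        by_cases h3 : par v = u
        · exact Or.inl ⟨e, fun _ => h3, fun h => absurd h1 h⟩
        · exact Or.inr ⟨e.symm, fun h => absurd h h2, fun _ => h3⟩
      · by_cases h3 : par u = v
        · exact Or.inr ⟨e.symm, fun _ => h3, fun h =>
            absurd (h3 ▸ (mem_sdiff.1 (hp1 u (hHL u hu h1)).1).1) h⟩
        · exact Or.inl ⟨e, fun h => absurd h h1, fun _ => h3⟩)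
    (fun u hu v hv e h1 h2 => (hO u v).2 ⟨e, fun h => absurd h h1, fun _ h =>
      h2 (h ▸ (mem_sdiff.1 (hp1 u (hHL u hu h1)).1).1)⟩)
    (by
      intro v hv
      have h1 := card_sdiff_add_card_eq_card
        (subset_univ (((A \ H).filter (G.Adj v)).image c))
      have h2 : (((A \ H).filter (G.Adj v)).image c).card ≤ dg G (A \ H) v := card_image_le
      have h3 := dg_sdiff (G := G) hHA v
      rw [card_univ, Fintype.card_fin] at h1
      by_cases hvW : v ∈ W
      · have h5 : dg G (A \ H) v = 0 := dg_eq_zero.2 fun u hu e => by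
          obtain ⟨h6, h7⟩ := mem_sdiff.1 hu
          refine h7 (mem_union_left _ (mem_sdiff.2 ⟨WL v hvW u h6 e, fun h => ?_⟩))
          exact (mem_sdiff.1 (hHW v hv hvW)).2 ((mN _ _).2 ⟨hvW, u, h, e⟩)
        have h6 : (H.filter (O v)).card ≤ (univ : Finset (Fin 2)).card := by
          refine card_le_card_of_injOn
            (fun u => if h : u ∈ L \ X then (f ⟨u, h⟩).2 else 0) (fun _ _ => by simp) ?_
          intro a ha b hb hab
          obtain ⟨ha1, ha0⟩ := mem_filter.1 (mem_coe.1 ha)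
          obtain ⟨hb1, hb0⟩ := mem_filter.1 (mem_coe.1 hb)
          obtain ⟨ha2, ha3, -⟩ := (hO _ _).1 ha0
          obtain ⟨hb2, hb3, -⟩ := (hO _ _).1 hb0
          have ha4 := hHL a ha1 (nLW a (WL v hvW a (hHA ha1) ha2))
          have hb4 := hHL b hb1 (nLW b (WL v hvW b (hHA hb1) hb2))
          have h7 := (ha3 hvW).trans (hb3 hvW).symm
          simp only [hpar, ha4, hb4, dite_true] at h7 hab
          exact congrArg Subtype.val (hf (Prod.ext h7 hab))
        rw [card_univ, Fintype.card_fin] at h6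
        omega
      · have h5 := hHL v hv hvW
        have h6 := ((mL v).1 (mem_sdiff.1 h5).1).2
        have h7 : (H.filter (O v)).card < dg G H v := by
          refine card_lt_card ⟨fun u hu => mem_filter.2
            ⟨(mem_filter.1 hu).1, ((hO _ _).1 (mem_filter.1 hu).2).1⟩, fun h => ?_⟩
          exact ((hO _ _).1 (mem_filter.1 (h (mem_filter.2
            ⟨mem_union_right _ (hp1 v h5).1, (hp1 v h5).2⟩))).2).2.2 hvW rfl
        omega)
  apply hA.1
  have key : ∀ a ∈ H, ∀ b ∈ A, b ∉ H → G.Adj a b → d a ≠ c b := fun a ha b hb h e h1 =>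
    (mem_sdiff.1 (hd1 a ha)).2
      (mem_image.2 ⟨b, mem_filter.2 ⟨mem_sdiff.2 ⟨hb, h⟩, e⟩, h1.symm⟩)
  refine ⟨fun u => if u ∈ H then d u else c u, fun a ha b hb e => ?_⟩
  by_cases e1 : a ∈ H <;> by_cases e2 : b ∈ H <;> simp only [e1, e2, if_true, if_false]
  · exact hd2 a e1 b e2 e
  · exact key a e1 b hb e2 e
  · exact (key b e2 a ha e1 e.symm).symm
  · exact hc a (mem_sdiff.2 ⟨ha, e1⟩) b (mem_sdiff.2 ⟨hb, e2⟩) e

end

end Pool.Agent.P.MP_e94690_lc
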