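import Pool.Agent.P.MP_e94690_lc.Basic

set_option autoImplicit false

namespace Pool.Agent.P.MP_e94690_lc

open Finset

noncomputable section
open Classical

variable {V : Type} {G : SimpleGraph V} {A : Finset V}

lemma two_col : ∀ (A : Finset V), (∀ B ⊆ A, B.Nonempty → ∃ v ∈ B, dg G B v ≤ 1) →
    ∃ c : V → Bool, ∀ u ∈ A, ∀ v ∈ A, G.Adj u v → c u ≠ c v := by
  intro A
  induction A using Finset.strongInduction with
  | H A ih =>
  intro h
  rcases A.eq_empty_or_nonempty with rfl | hne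
  · exact ⟨fun _ => true, by simp⟩
  obtain ⟨v, hv, hd⟩ := h A Subset.rfl hne
  obtain ⟨c, hc⟩ := ih _ (erase_ssubset hv) fun B hB => h B (hB.trans (erase_subset _ _))
  obtain ⟨i, hi⟩ : ∃ i : Bool, ∀ u ∈ A, G.Adj v u → c u ≠ i := by
    by_cases h1 : ∃ w ∈ A, G.Adj v w
    · obtain ⟨w, hw, e⟩ := h1
      refine ⟨!c w, fun u hu e' => ?_⟩
      rw [card_le_one.1 hd u (mem_filter.2 ⟨hu, e'⟩) w (mem_filter.2 ⟨hw, e⟩)]
      simp
    · exact ⟨true, fun u hu e => absurd ⟨u, hu, e⟩ h1⟩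
  refine ⟨Function.update c v i, fun a ha b hb e => ?_⟩
  by_cases e1 : a = v
  · subst e1
    rw [Function.update_self, Function.update_of_ne e.ne.symm]
    exact (hi b hb e).symm
  by_cases e2 : b = v
  · subst e2
    rw [Function.update_self, Function.update_of_ne e1]
    exact hi a ha e.symm
  rw [Function.update_of_ne e1, Function.update_of_ne e2]
  exact hc a (mem_erase.2 ⟨e1, ha⟩) b (mem_erase.2 ⟨e2, hb⟩) e

/-- `a` is neither in `I` nor adjacent to `I` -/
def Un (G : SimpleGraph V) (I : Finset V) (a : V) : Prop := a ∉ I ∧ ∀ z ∈ I, ¬ G.Adj a z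

lemma greedy (W : Finset V) (Gd : Finset V → Prop) (h0 : Gd ∅) (h1 : ∀ a ∈ W, Gd {a})
    (h2 : ∀ I ⊆ W, ∀ x ∈ W, ∀ a ∈ W, ∀ b ∈ W, Gd (insert x I) → Gd (insert a I) →
      Gd (insert b I) → ¬ Gd (insert a (insert x I)) → ¬ Gd (insert b (insert x I)) → a = b) :
    ∃ I ⊆ W, Gd I ∧ (∀ a ∈ I, ∀ b ∈ I, ¬ G.Adj a b) ∧
      ∀ a ∈ W, ∀ b ∈ W, Un G I a → Un G I b → ¬ G.Adj a b := by
  obtain ⟨Act, hAct⟩ : ∃ Act : Finset V → V → Prop, ∀ I a, Act I a ↔
      a ∈ W ∧ Un G I a ∧ ¬ Gd (insert a I) ∧ ∃ b ∈ W, Un G I b ∧ G.Adj a b :=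
    ⟨_, fun _ _ => Iff.rfl⟩
  obtain ⟨I, hI, hmax⟩ := exists_max_image (W.powerset.filter fun I => Gd I ∧
    (∀ a ∈ I, ∀ b ∈ I, ¬ G.Adj a b) ∧ ∀ a b, Act I a → Act I b → a = b) card
    ⟨∅, mem_filter.2 ⟨empty_mem_powerset _, h0, by simp, fun a b ha _ =>
      absurd (h1 a ((hAct _ _).1 ha).1) ((hAct _ _).1 ha).2.2.1⟩⟩
  obtain ⟨hIW, hG, hind, hJ⟩ := mem_filter.1 hI
  rw [mem_powerset] at hIW
  refine ⟨I, hIW, hG, hind, fun a ha b hb ua ub e => ?_⟩
  obtain ⟨x, hx, ux, gx, hy⟩ : ∃ x ∈ W, Un G I x ∧ Gd (insert x I) ∧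
      ∀ y, Act I y → G.Adj y x := by
    by_cases h : ∃ y, Act I y
    · obtain ⟨y, hy⟩ := h
      obtain ⟨h3, h4, h5, x, hx, ux, e⟩ := (hAct _ _).1 hy
      refine ⟨x, hx, ux, ?_, fun z hz => hJ z y hz hy ▸ e⟩
      by_contra h6
      exact e.ne (hJ y x hy ((hAct _ _).2 ⟨hx, ux, h6, y, h3, h4, e.symm⟩))
    · refine ⟨a, ha, ua, ?_, fun y hy => absurd ⟨y, hy⟩ h⟩
      by_contra h6
      exact h ⟨a, (hAct _ _).2 ⟨ha, ua, h6, b, hb, ub, e⟩⟩
  have un : ∀ c, Un G (insert x I) c → Un G I c := fun c h =>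
    ⟨fun hh => h.1 (mem_insert_of_mem hh), fun z hz => h.2 z (mem_insert_of_mem hz)⟩
  have key : ∀ c, Act (insert x I) c → c ∈ W ∧ Gd (insert c I) ∧
      ¬ Gd (insert c (insert x I)) := by
    intro c hc
    obtain ⟨h3, h4, h5, d, hd, ud, e⟩ := (hAct _ _).1 hc
    refine ⟨h3, ?_, h5⟩
    by_contra h6
    exact h4.2 x (mem_insert_self _ _)
      (hy c ((hAct _ _).2 ⟨h3, un c h4, h6, d, hd, un d ud, e⟩))
  have := hmax (insert x I) (mem_filter.2 ⟨mem_powerset.2 (insert_subset hx hIW), gx, ?_,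
    fun c d hc hd => h2 I hIW x hx c (key c hc).1 d (key d hd).1 gx (key c hc).2.1
      (key d hd).2.1 (key c hc).2.2 (key d hd).2.2⟩)
  · rw [card_insert_of_notMem ux.1] at this
    omega
  · intro c hc d hd e
    rcases mem_insert.1 hc with rfl | hc' <;> rcases mem_insert.1 hd with rfl | hd'
    · exact G.irrefl e
    · exact ux.2 d hd' e
    · exact ux.2 c hc' e.symm
    · exact hind c hc' d hd' e

lemma ee_insert {v : V} (h : v ∉ A) :
    ee G (insert v A) (insert v A) = ee G A A + 2 * dg G A v := by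
  have h1 := pot_insert (G := G) h
  unfold pot at h1
  rw [card_insert_of_notMem h] at h1
  omega

def phi (G : SimpleGraph V) (A S : Finset V) : ℕ := 2 * ee G S S + ee G (A \ S) (A \ S)

lemma phi_insert {S : Finset V} {v : V} (hv : v ∈ A) (h : v ∉ S) :
    phi G A (insert v S) + 2 * dg G (A \ S) v = phi G A S + 4 * dg G S v := by
  unfold phi
  have h1 : v ∈ A \ S := mem_sdiff.2 ⟨hv, h⟩
  have h2 := ee_insert (G := G) (notMem_erase v (A \ S))
  have h3 := dg_erase (G := G) h1 v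
  rw [insert_erase h1] at h2
  rw [ee_insert h, sdiff_insert]
  simp only [G.irrefl, if_false] at h3
  omega

lemma phi_erase {S : Finset V} {v : V} (hS : S ⊆ A) (h : v ∈ S) :
    phi G A S + 2 * dg G (A \ S) v = phi G A (S.erase v) + 4 * dg G S v := by
  have h1 := phi_insert (G := G) (hS h) (notMem_erase v S)
  have h2 := dg_erase (G := G) h v
  have h3 := dg_sdiff (G := G) hS v
  have h4 := dg_sdiff (G := G) ((erase_subset v S).trans hS) v
  rw [insert_erase h] at h1
  simp only [G.irrefl, if_false] at h2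
  omega

lemma dg_inter_add_union (B C : Finset V) (v : V) :
    dg G (B ∪ C) v + dg G (B ∩ C) v = dg G B v + dg G C v := by
  unfold dg
  rw [filter_union, filter_inter_distrib, card_union_add_card_inter]

/-- edges with at least one end in `S` -/
def lam (G : SimpleGraph V) (S : Finset V) : SimpleGraph V where
  Adj a b := G.Adj a b ∧ (a ∈ S ∨ b ∈ S)
  symm := ⟨fun _ _ h => ⟨h.1.symm, h.2.symm⟩⟩
  loopless := ⟨fun _ h => G.irrefl h.1⟩

theorem part (hd : ∀ v ∈ A, dg G A v ≤ 6) (ht : TriFree G A) :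
    ∃ S ⊆ A, (∃ c : V → Bool, ∀ u ∈ S, ∀ v ∈ S, G.Adj u v → c u ≠ c v) ∧
      (∀ v ∈ A \ S, dg G (A \ S) v ≤ 4) ∧
      ∀ u ∈ A \ S, ∀ v ∈ A \ S, dg G (A \ S) u = 4 → dg G (A \ S) v = 4 → ¬ G.Adj u v := by
  obtain ⟨S0, hS0, hmin0⟩ := exists_min_image A.powerset (phi G A) ⟨∅, empty_mem_powerset _⟩
  obtain ⟨S, hS, hcard⟩ := exists_min_image
    (A.powerset.filter fun S => phi G A S = phi G A S0) card ⟨S0, mem_filter.2 ⟨hS0, rfl⟩⟩
  obtain ⟨hSA, hphi⟩ := mem_filter.1 hS
  rw [mem_powerset] at hSA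
  have hmin : ∀ B ⊆ A, phi G A S ≤ phi G A B := fun B hB => hphi ▸ hmin0 B (mem_powerset.2 hB)
  have m1 : ∀ B ⊆ A, phi G A B = phi G A S → ∀ v ∈ B, dg G B v ≤ 2 := by
    intro B hB h v hv
    have h1 := phi_erase (G := G) hB hv
    have h2 := hmin _ ((erase_subset v B).trans hB)
    have h3 := dg_sdiff (G := G) hB v
    have h4 := hd v (hB hv)
    omega
  have m2 : ∀ v ∈ A \ S, dg G (A \ S) v ≤ 4 ∧ (dg G (A \ S) v = 4 → dg G S v = 2) := by
    intro v hv
    obtain ⟨h5, h6⟩ := mem_sdiff.1 hv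
    have h1 := phi_insert (G := G) h5 h6
    have h2 := hmin _ (insert_subset h5 hSA)
    have h3 := dg_sdiff (G := G) hSA v
    have h4 := hd v h5
    omega
  have m3 : ∀ v ∈ S, dg G S v ≤ 1 := by
    intro v hv
    have h1 := phi_erase (G := G) hSA hv
    have h2 := hmin _ ((erase_subset v S).trans hSA)
    have h3 := dg_sdiff (G := G) hSA v
    have h4 := hd v (hSA hv)
    by_contra h5
    have h6 := hcard (S.erase v) (mem_filter.2
      ⟨mem_powerset.2 ((erase_subset v S).trans hSA), by omega⟩)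
    have h7 := card_erase_lt_of_mem hv
    omega
  set W := (A \ S).filter (fun v => dg G (A \ S) v = 4) with hW
  have mW : ∀ v, v ∈ W ↔ v ∈ A \ S ∧ dg G (A \ S) v = 4 := fun v => mem_filter
  have WA : ∀ v ∈ W, v ∈ A ∧ v ∉ S := fun v hv => mem_sdiff.1 ((mW v).1 hv).1
  have dSW : ∀ X ⊆ W, Disjoint S X := fun X hX =>
    disjoint_left.2 fun a h1 h2 => (WA a (hX h2)).2 h1
  have m4 : ∀ X ⊆ W, (∀ a ∈ X, ∀ b ∈ X, ¬ G.Adj a b) → phi G A (S ∪ X) = phi G A S := by
    intro X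
    induction X using Finset.induction_on with
    | empty => intro _ _; rw [union_empty]
    | insert x X hx ih =>
      intro hX hi
      have hX' : X ⊆ W := (subset_insert _ _).trans hX
      have hxW := hX (mem_insert_self _ _)
      have h0 := ih hX' fun a ha b hb => hi a (mem_insert_of_mem ha) b (mem_insert_of_mem hb)
      have h1 := phi_insert (G := G) (S := S ∪ X) (WA x hxW).1
        (fun h => (mem_union.1 h).elim (WA x hxW).2 hx)
      have h2 := dg_union (G := G) (dSW X hX') x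
      have h3 : dg G X x = 0 := dg_eq_zero.2 fun u hu =>
        hi x (mem_insert_self _ _) u (mem_insert_of_mem hu)
      have h4 := dg_sdiff (G := G) hSA x
      have h5 := dg_sdiff (G := G) (union_subset hSA fun a ha => (WA a (hX' ha)).1) x
      have h6 := ((mW x).1 hxW).2
      have h7 := (m2 x ((mW x).1 hxW).1).2 h6
      rw [union_insert]
      omega
  have m5 : ∀ v ∈ S ∪ W, dg (lam G S) (S ∪ W) v ≤ 2 := by
    intro v hv
    rcases mem_union.1 hv with hv | hv
    · have hX : W.filter (G.Adj v) ⊆ W := filter_subset _ _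
      have h1 := m1 _ (union_subset hSA fun a ha => (WA a (hX ha)).1) (m4 _ hX (by
        intro a ha b hb e
        exact ht v (hSA hv) a (WA a (hX ha)).1 b (WA b (hX hb)).1 (mem_filter.1 ha).2
          (mem_filter.1 hb).2 e)) v (mem_union_left _ hv)
      refine le_trans (card_le_card fun a ha => ?_) h1
      obtain ⟨h2, h3⟩ := mem_filter.1 ha
      refine mem_filter.2 ⟨?_, h3.1⟩
      rcases mem_union.1 h2 with h | h
      · exact mem_union_left _ h
      · exact mem_union_right _ (mem_filter.2 ⟨h, h3.1⟩)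
    · refine le_trans (card_le_card fun a ha => ?_)
        ((m2 v ((mW v).1 hv).1).2 ((mW v).1 hv).2).le
      obtain ⟨-, h3⟩ := mem_filter.1 ha
      exact mem_filter.2 ⟨h3.2.resolve_left (WA v hv).2, h3.1⟩
  have one : ∀ a ∈ W, ∀ B ⊆ S ∪ {a}, B.Nonempty → ∃ v ∈ B, dg (lam G S) B v ≤ 1 := by
    intro a ha B hB hne
    by_contra hn
    push Not at hn
    have key : ∀ s ∈ B, s ∈ S → G.Adj s a ∧ ∃ t ∈ B, t ∈ S ∧ G.Adj s t := by
      intro s hs hsS
      obtain ⟨u, hu, w, hw, huw⟩ := one_lt_card.1 (hn s hs)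
      obtain ⟨hu1, hu2, -⟩ := mem_filter.1 hu
      obtain ⟨hw1, hw2, -⟩ := mem_filter.1 hw
      rcases mem_union.1 (hB hu1) with h1 | h1 <;> rcases mem_union.1 (hB hw1) with h2 | h2
      · exact absurd (card_le_one.1 (m3 s hsS) u (mem_filter.2 ⟨h1, hu2⟩) w
          (mem_filter.2 ⟨h2, hw2⟩)) huw
      · exact ⟨mem_singleton.1 h2 ▸ hw2, u, hu1, h1, hu2⟩
      · exact ⟨mem_singleton.1 h1 ▸ hu2, w, hw1, h2, hw2⟩
      · exact absurd ((mem_singleton.1 h1).trans (mem_singleton.1 h2).symm) huw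
    obtain ⟨s, hs, hsS⟩ : ∃ s ∈ B, s ∈ S := by
      obtain ⟨v, hv⟩ := hne
      obtain ⟨u, hu, e⟩ := dg_pos.1 (lt_trans Nat.zero_lt_one (hn v hv))
      rcases e.2 with h | h
      · exact ⟨v, hv, h⟩
      · exact ⟨u, hu, h⟩
    obtain ⟨e1, t, ht1, ht2, e2⟩ := key s hs hsS
    exact ht s (hSA hsS) t (hSA ht2) a (WA a ha).1 e2 e1 (key t ht1 ht2).1
  obtain ⟨I, hIW, hG, hind, hU⟩ := greedy (G := G) W
    (fun I => ∀ B ⊆ S ∪ I, B.Nonempty → ∃ v ∈ B, dg (lam G S) B v ≤ 1)
    (by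
      intro B hB ⟨v, hv⟩
      rw [union_empty] at hB
      refine ⟨v, hv, le_trans (card_le_card fun a ha => ?_) (m3 v (hB hv))⟩
      exact mem_filter.2 ⟨hB (mem_filter.1 ha).1, (mem_filter.1 ha).2.1⟩)
    one
    (by
      intro I hI x hx a ha b hb gx ga gb na nb
      by_contra hab
      push Not at na nb
      obtain ⟨B, hB, hBne, hBc⟩ := na
      obtain ⟨C, hC, hCne, hCc⟩ := nb
      have mem : ∀ a, ∀ B ⊆ S ∪ insert a (insert x I), B.Nonempty →
          (∀ v ∈ B, 1 < dg (lam G S) B v) →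
          (∀ B ⊆ S ∪ insert a I, B.Nonempty → ∃ v ∈ B, dg (lam G S) B v ≤ 1) → x ∈ B := by
        intro a B hB hne hc ga
        by_contra hxB
        obtain ⟨v, hv, h⟩ := ga B (by
          intro u hu
          have := hB hu
          have := ne_of_mem_of_not_mem hu hxB
          simp only [mem_union, mem_insert] at *
          tauto) hne
        exact absurd (hc v hv) (by omega)
      obtain ⟨v, hv, h⟩ := gx (B ∩ C) (by
        intro u hu
        have h1 := hB (mem_inter.1 hu).1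
        have h2 := hC (mem_inter.1 hu).2
        simp only [mem_union, mem_insert] at h1 h2 ⊢
        rcases h1 with h1 | h1 | h1
        · exact Or.inl h1
        · rcases h2 with h2 | h2 | h2
          · exact Or.inl h2
          · exact absurd (h1.symm.trans h2) hab
          · exact Or.inr h2
        · exact Or.inr h1) ⟨x, mem_inter.2 ⟨mem a B hB hBne hBc ga, mem b C hC hCne hCc gb⟩⟩
      have hsub : B ∪ C ⊆ S ∪ W := union_subset
        (hB.trans (union_subset_union Subset.rfl (insert_subset ha (insert_subset hx hI))))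
        (hC.trans (union_subset_union Subset.rfl (insert_subset hb (insert_subset hx hI))))
      have h1 := dg_inter_add_union (G := lam G S) B C v
      have h2 := hBc v (mem_inter.1 hv).1
      have h3 := hCc v (mem_inter.1 hv).2
      have h4 := m5 v (hsub (mem_union_left _ (mem_inter.1 hv).1))
      have h5 := dg_mono (G := lam G S) hsub v
      omega)
  have hsub : A \ (S ∪ I) ⊆ A \ S := sdiff_subset_sdiff Subset.rfl subset_union_left
  obtain ⟨c, hc⟩ := two_col _ hG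
  refine ⟨S ∪ I, union_subset hSA fun a ha => (WA a (hIW ha)).1, ⟨c, fun u hu v hv e => ?_⟩,
    fun v hv => le_trans (dg_mono hsub v) (m2 v (hsub hv)).1, ?_⟩
  · refine hc u hu v hv ⟨e, ?_⟩
    by_contra h
    push Not at h
    exact hind u ((mem_union.1 hu).resolve_left h.1) v ((mem_union.1 hv).resolve_left h.2) e
  · have key : ∀ u ∈ A \ (S ∪ I), dg G (A \ (S ∪ I)) u = 4 → u ∈ W ∧ Un G I u := by
      intro u hu h
      have h1 := dg_sdiff (G := G) hsub u
      have h2 := (m2 u (hsub hu)).1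
      refine ⟨(mW u).2 ⟨hsub hu, by omega⟩, fun hh => (mem_sdiff.1 hu).2 (mem_union_right _ hh),
        fun z hz => dg_eq_zero.1 (show dg G ((A \ S) \ (A \ (S ∪ I))) u = 0 by omega) z ?_⟩
      exact mem_sdiff.2 ⟨((mW z).1 (hIW hz)).1, fun hh =>
        (mem_sdiff.1 hh).2 (mem_union_right _ hz)⟩
    intro u hu v hv h1 h2
    exact hU u (key u hu h1).1 v (key v hv h2).1 (key u hu h1).2 (key v hv h2).2

end

end Pool.Agent.P.MP_e94690_lc
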