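import Pool.Agent.P.MP_e94690_lc.TF
import Pool.Agent.P.MP_e94690_lc.Ker
import Pool.Agent.P.MP_e94690_lc.Part

set_option autoImplicit false

namespace Pool.Agent.P.MP_e94690_lc

open Finset

noncomputable section
open Classical

variable {V : Type} {G : SimpleGraph V} {A : Finset V}

/-- triangle-free graphs of maximum degree four whose vertices of degree four are independent
are 3-colourable -/
theorem col_ore (ht : TriFree G A) (h4 : ∀ v ∈ A, dg G A v ≤ 4)
    (hW : ∀ u ∈ A, ∀ v ∈ A, dg G A u = 4 → dg G A v = 4 → ¬ G.Adj u v) : Col G A := by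
  by_contra h
  obtain ⟨K, hK, hc⟩ := exists_crit h
  have h1 := pot_tf hc fun a ha b hb c hc => ht a (hK ha) b (hK hb) c (hK hc)
  have h2 := pot_pos hc (fun v hv => le_trans (dg_mono hK v) (h4 v (hK hv))) (by
    intro u hu v hv e1 e2
    have h3 := dg_mono (G := G) hK u
    have h5 := dg_mono (G := G) hK v
    have h6 := h4 u (hK hu)
    have h7 := h4 v (hK hv)
    exact hW u (hK hu) v (hK hv) (by omega) (by omega))
  omega

theorem five_col (hd : ∀ v ∈ A, dg G A v ≤ 6) (ht : TriFree G A) :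
    ∃ c : V → Bool ⊕ Fin 3, ∀ u ∈ A, ∀ v ∈ A, G.Adj u v → c u ≠ c v := by
  obtain ⟨S, -, ⟨c, hc⟩, h1, h2⟩ := part hd ht
  obtain ⟨d, hd⟩ := col_ore (A := A \ S)
    (fun a ha b hb c hc => ht a (sdiff_subset ha) b (sdiff_subset hb) c (sdiff_subset hc)) h1 h2
  refine ⟨fun v => if v ∈ S then Sum.inl (c v) else Sum.inr (d v), fun a ha b hb e => ?_⟩
  by_cases e1 : a ∈ S <;> by_cases e2 : b ∈ S <;> simp only [e1, e2, if_true, if_false]
  · exact fun h => hc a e1 b e2 e (Sum.inl_injective h)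
  · exact Sum.inl_ne_inr
  · exact Sum.inr_ne_inl
  · exact fun h => hd a (mem_sdiff.2 ⟨ha, e1⟩) b (mem_sdiff.2 ⟨hb, e2⟩) e (Sum.inr_injective h)

end

theorem colorable_five (V : Type) [Fintype V] (G : SimpleGraph V) [DecidableRel G.Adj]
    (hd : G.maxDegree ≤ 6) (ht : G.CliqueFree 3) : G.Colorable 5 := by
  classical
  obtain ⟨c, hc⟩ := five_col (G := G) (A := univ) (by
    intro v _
    refine le_trans (dg_le (G.neighborFinset v) fun u _ e => ?_)
      (le_trans (G.degree_le_maxDegree v) hd)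
    exact (G.mem_neighborFinset v u).2 e) (by
    intro a _ b _ c _ e1 e2 e3
    exact ht {a, b, c} (SimpleGraph.is3Clique_triple_iff.2 ⟨e1, e2, e3⟩))
  have C : G.Coloring (Bool ⊕ Fin 3) :=
    SimpleGraph.Coloring.mk c fun {a b} e => hc a (mem_univ _) b (mem_univ _) e
  simpa using C.colorable

end Pool.Agent.P.MP_e94690_lc
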