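import Pool.Agent.P.MP_e94690_lc.Ext

set_option autoImplicit false

namespace Pool.Agent.P.MP_e94690_lc

open Finset

noncomputable section
open Classical

variable {V : Type} {G : SimpleGraph V} {A R : Finset V}

/-- a triangle of vertices of degree three -/
def Em (G : SimpleGraph V) (A : Finset V) (a b c : V) : Prop :=
  a ∈ A ∧ b ∈ A ∧ c ∈ A ∧ G.Adj a b ∧ G.Adj a c ∧ G.Adj b c ∧
    dg G A a = 3 ∧ dg G A b = 3 ∧ dg G A c = 3

/-- adjacent twins of degree three -/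
def Tw (G : SimpleGraph V) (A : Finset V) (a b s t : V) : Prop :=
  a ∈ A ∧ b ∈ A ∧ s ∈ A ∧ t ∈ A ∧ G.Adj a b ∧ G.Adj a s ∧ G.Adj a t ∧ G.Adj b s ∧ G.Adj b t ∧
    s ≠ t ∧ dg G A a = 3 ∧ dg G A b = 3

def Good (G : SimpleGraph V) (A : Finset V) (P Q : V → Prop) : Prop :=
  (∃ a b c, Em G A a b c ∧ P a ∧ P b ∧ P c) ∨
    (∃ a b s t, Tw G A a b s t ∧ P a ∧ P b ∧ Q s ∧ Q t)

def BB (G : SimpleGraph V) (A : Finset V) : Prop :=
  (∀ x, Good G A (· ≠ x) (· ≠ x)) ∧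
    ∀ X ⊆ A, Clq G X → (A.card = 4 ∧ 3 ≤ X.card) ∨ Good G A (· ∉ X) (fun _ => True)

def Main (G : SimpleGraph V) (A : Finset V) : Prop := pot G A ≤ 4 ∧ (pot G A = 4 → BB G A)

def IH (A : Finset V) : Prop :=
  ∀ (H : SimpleGraph V) (B : Finset V), B.card < A.card → Crit H B → Main H B

lemma Good.mono {P Q P' Q' : V → Prop} (h : Good G A P Q) (hP : ∀ a, P a → P' a)
    (hQ : ∀ a, Q a → Q' a) : Good G A P' Q' := by
  rcases h with ⟨a, b, c, h, h1, h2, h3⟩ | ⟨a, b, s, t, h, h1, h2, h3, h4⟩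
  · exact Or.inl ⟨a, b, c, h, hP _ h1, hP _ h2, hP _ h3⟩
  · exact Or.inr ⟨a, b, s, t, h, hP _ h1, hP _ h2, hQ _ h3, hQ _ h4⟩

lemma pot_clq3 {H : SimpleGraph V} {X : Finset V} (h : Clq H X) (h1 : X.Nonempty)
    (h3 : X.card ≤ 3) : (X.card = 1 ∧ pot H X = 10) ∨ (X.card = 2 ∧ pot H X = 14) ∨
      (X.card = 3 ∧ pot H X = 12) := by
  have h0 := card_pos.2 h1
  have := pot_clq h
  have hc : X.card = 1 ∨ X.card = 2 ∨ X.card = 3 := by omega
  rcases hc with hc | hc | hc <;> rw [hc] at this <;> simp [hc, this]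

lemma card_ext {X Y : Finset V} (hR : R ⊆ A) (h4 : 4 ≤ R.card) (hY : Y ⊆ A \ R)
    (hX : X.card ≤ 3) : (X ∪ Y).card < A.card := by
  have h1 := card_union_le X Y
  have h2 := card_le_card hY
  have h3 := card_sdiff_add_card_eq_card hR
  omega

lemma union_cases {Y : Finset V} (hR : R ⊆ A) (hY : Y ⊆ A \ R) (hne : Y.Nonempty) :
    R ⊂ R ∪ Y ∧ (R ∪ Y = A ∨ R ∪ Y ⊂ A) := by
  refine ⟨⟨subset_union_left, fun h => ?_⟩,
    (union_subset hR (hY.trans sdiff_subset)).eq_or_ssubset⟩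
  obtain ⟨y, hy⟩ := hne
  exact (mem_sdiff.1 (hY hy)).2 (h (mem_union_right _ hy))

lemma gap (hA : Crit G A) (ih : IH A) :
    ∀ n, ∀ R ⊂ A, A.card - R.card ≤ n → 4 ≤ R.card → pot G A + 6 ≤ pot G R := by
  intro n
  induction n with
  | zero =>
    intro R hR h _
    have := card_lt_card hR
    omega
  | succ n ihn =>
    intro R hR h h4
    obtain ⟨φ, hφ⟩ := hA.2 R hR
    obtain ⟨H, X, Y, l, i, hXR, hY, hYne, hXne, hX3, hK, hcl, -, hp, -⟩ :=
      ext hA hR.1 (by omega) hφ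
    have h1 := (ih H _ (card_ext hR.1 h4 hY hX3) hK).1
    have h2 := pot_clq3 hcl hXne hX3
    obtain ⟨h3, h5⟩ := union_cases hR.1 hY hYne
    have h6 := card_lt_card h3
    rcases h5 with h5 | h5
    · rw [h5] at hp
      omega
    · have := ihn _ h5 (by omega) (by omega)
      omega

lemma good_transfer {H : SimpleGraph V} {X Y : Finset V} (hY : Y ⊆ A \ R) (hA : R ∪ Y = A)
    (hout : ∀ a ∉ R, ∀ b ∉ R, H.Adj a b ↔ G.Adj a b)
    (hd : ∀ y ∈ Y, dg H (X ∪ Y) y = dg G (R ∪ Y) y)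
    (h : Good H (X ∪ Y) (· ∉ X) (· ∉ X)) : Good G A (· ∉ R) (· ∉ R) := by
  have m1 : ∀ a, a ∈ X ∪ Y → a ∉ X → a ∈ Y := fun a h1 h2 => (mem_union.1 h1).resolve_left h2
  have m2 : ∀ a ∈ Y, a ∈ A := fun a h1 => (mem_sdiff.1 (hY h1)).1
  have m3 : ∀ a ∈ Y, a ∉ R := fun a h1 => (mem_sdiff.1 (hY h1)).2
  have m4 : ∀ a ∈ Y, ∀ b ∈ Y, H.Adj a b → G.Adj a b := fun a h1 b h2 =>
    (hout a (m3 a h1) b (m3 b h2)).1
  rw [hA] at hd
  rcases h with ⟨a, b, c, ⟨ha, hb, hc, h1, h2, h3, h4, h5, h6⟩, pa, pb, pc⟩ |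
    ⟨a, b, s, t, ⟨ha, hb, hs, ht, h1, h2, h3, h4, h5, h6, h7, h8⟩, pa, pb, ps, pt⟩
  · have ya := m1 a ha pa
    have yb := m1 b hb pb
    have yc := m1 c hc pc
    exact Or.inl ⟨a, b, c, ⟨m2 a ya, m2 b yb, m2 c yc, m4 a ya b yb h1, m4 a ya c yc h2,
      m4 b yb c yc h3, hd a ya ▸ h4, hd b yb ▸ h5, hd c yc ▸ h6⟩, m3 a ya, m3 b yb, m3 c yc⟩
  · have ya := m1 a ha pa
    have yb := m1 b hb pb
    have ys := m1 s hs ps
    have yt := m1 t ht pt
    exact Or.inr ⟨a, b, s, t, ⟨m2 a ya, m2 b yb, m2 s ys, m2 t yt, m4 a ya b yb h1,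
      m4 a ya s ys h2, m4 a ya t yt h3, m4 b yb s ys h4, m4 b yb t yt h5, h6,
      hd a ya ▸ h7, hd b yb ▸ h8⟩, m3 a ya, m3 b yb, m3 s ys, m3 t yt⟩

lemma alpha (hA : Crit G A) (ih : IH A) (h4 : 4 ≤ pot G A) (hR : R ⊂ A) (hR4 : 4 ≤ R.card)
    (hp : pot G R ≤ 10) {φ : V → Fin 3} (hφ : Prop3 G R φ) :
    pot G A = 4 ∧ Good G A (· ∉ R) (· ∉ R) ∧ (∀ y ∈ A, y ∉ R → dg G R y ≤ 1) ∧
      ∀ u v, Bd G A R u → Bd G A R v → φ u = φ v := by
  obtain ⟨H, X, Y, l, i, hXR, hY, hYne, hXne, hX3, hK, hcl, hout, hq, hl⟩ :=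
    ext hA hR.1 (by omega) hφ
  have h1 := ih H _ (card_ext hR.1 hR4 hY hX3) hK
  have h1' := h1.1
  have h2 := pot_clq3 hcl hXne hX3
  obtain ⟨h3, h5⟩ := union_cases hR.1 hY hYne
  have h6 := card_lt_card h3
  rcases h5 with h5 | h5
  swap
  · have := gap hA ih _ _ h5 le_rfl (by omega)
    omega
  have hq' := hq
  rw [h5] at hq'
  have hX1 : X.card = 1 := by omega
  have hl0 : l = 0 := by omega
  have hYm : ∀ y ∈ A, y ∉ R → y ∈ Y := fun y hy hyR =>
    (mem_union.1 (h5 ▸ hy : y ∈ R ∪ Y)).resolve_left hyR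
  obtain ⟨x, rfl⟩ := card_eq_one.1 hX1
  refine ⟨by omega, good_transfer hY h5 hout (fun y hy => (hl hl0 y hy).2.1)
    (((h1.2 (by omega)).1 x).mono (fun a ha => by simpa using ha) (fun a ha => by simpa using ha)),
    fun y hy hyR => ?_, ?_⟩
  · rw [← (hl hl0 y (hYm y hy hyR)).1, ← hX1]
    exact dg_le_card y
  · rintro u v ⟨hu, y, hy, hyR, huy⟩ ⟨hv, z, hz, hzR, hvz⟩
    rw [(hl hl0 y (hYm y hy hyR)).2.2 hX1 u hu huy.symm,
      (hl hl0 z (hYm z hz hzR)).2.2 hX1 v hv hvz.symm]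

/-- colouring a triangle `a b c` from a colouring of the rest -/
lemma col_triangle {B : Finset V} {ψ : V → Fin 3} (hψ : Prop3 G B ψ) {a b c a1 b1 c1 : V}
    (ha : a ∉ B) (hb : b ∉ B) (hc : c ∉ B) (hab : a ≠ b) (hac : a ≠ c) (hbc : b ≠ c)
    (na : ∀ u ∈ B, G.Adj a u → u = a1) (nb : ∀ u ∈ B, G.Adj b u → u = b1)
    (nc : ∀ u ∈ B, G.Adj c u → u = c1) (hne : ψ a1 ≠ ψ b1) (k : Fin 3) (hk : k ≠ ψ c1) :
    ∃ φ, Prop3 G (insert a (insert b (insert c B))) φ ∧ φ c = k ∧ ∀ u ∈ B, φ u = ψ u := by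
  obtain ⟨i, j, hij, hik, hjk, hi, hj⟩ := fin3_two (ψ a1) (ψ b1) k hne
  have h1 := hψ.insert hc k fun u hu h => by rw [nc u hu h]; exact hk.symm
  have hb' : b ∉ insert c B := by simp [hbc, hb]
  have h2 := h1.insert hb' j (by
    intro u hu h
    rcases mem_insert.1 hu with rfl | hu
    · rw [Function.update_self]; exact hjk.symm
    · rw [Function.update_of_ne (ne_of_mem_of_not_mem hu hc), nb u hu h]; exact hj.symm)
  have ha' : a ∉ insert b (insert c B) := by simp [hab, hac, ha]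
  have h3 := h2.insert ha' i (by
    intro u hu h
    rcases mem_insert.1 hu with rfl | hu
    · rw [Function.update_self]; exact hij.symm
    rw [Function.update_of_ne (ne_of_mem_of_not_mem hu hb')]
    rcases mem_insert.1 hu with rfl | hu
    · rw [Function.update_self]; exact hik.symm
    · rw [Function.update_of_ne (ne_of_mem_of_not_mem hu hc), na u hu h]; exact hi.symm)
  refine ⟨_, h3, ?_, fun u hu => ?_⟩
  · rw [Function.update_of_ne hac.symm, Function.update_of_ne hbc.symm, Function.update_self]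
  · rw [Function.update_of_ne (ne_of_mem_of_not_mem hu ha),
      Function.update_of_ne (ne_of_mem_of_not_mem hu hb),
      Function.update_of_ne (ne_of_mem_of_not_mem hu hc)]

lemma swap_twins {φ : V → Fin 3} (hφ : Prop3 G R φ) {a b : V} (ha : a ∈ R) (hb : b ∈ R)
    (hab : G.Adj a b) (h : ∀ u ∈ R, u ≠ a → u ≠ b → (G.Adj a u ↔ G.Adj b u)) :
    Prop3 G R (φ ∘ Equiv.swap a b) := by
  have m : ∀ u ∈ R, Equiv.swap a b u ∈ R := by
    intro u hu
    rw [Equiv.swap_apply_def]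
    split_ifs <;> assumption
  intro u hu v hv huv
  refine hφ _ (m u hu) _ (m v hv) ?_
  simp only [Equiv.swap_apply_def]
  by_cases h1 : u = a <;> by_cases h2 : u = b <;> by_cases h3 : v = a <;> by_cases h4 : v = b <;>
    simp only [h1, h2, h3, h4, if_true, if_false, hab.ne, hab.ne.symm] at huv ⊢
  all_goals first
    | exact absurd huv G.irrefl
    | exact absurd (h1.symm.trans h2) hab.ne
    | exact absurd (h3.symm.trans h4) hab.ne
    | exact hab
    | exact hab.symm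
    | exact huv
    | exact (h v hv h3 h4).1 huv
    | exact (h v hv h3 h4).2 huv
    | exact ((h u hu h1 h2).1 huv.symm).symm
    | exact ((h u hu h1 h2).2 huv.symm).symm

lemma beta (hA : Crit G A) (ih : IH A) (h4 : 4 ≤ pot G A) (u : V) :
    ∀ R ⊂ A, 4 ≤ R.card → pot G R ≤ 10 → (u ∈ R → Bd G A R u) →
      Good G A (fun a => a ∈ R ∧ a ≠ u) (· ∈ R) := by
  intro R
  induction R using Finset.strongInduction with
  | H R ihR =>
  intro hR hR4 hp hu
  have sub : ∀ K ⊂ R, ∀ p q, Crit (plusE G p q) K →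
      Good G A (fun a => a ∈ R ∧ a ≠ u) (· ∈ R) := by
    intro K hK p q hc
    have h1 := (ih _ K (lt_trans (card_lt_card hK) (card_lt_card hR)) hc).1
    have h2 := pot_plusE (G := G) p q K
    refine (ihR K hK (hK.trans hR) hc.four_le (by omega) fun h => ?_).mono
      (fun a ha => ⟨hK.1 ha.1, ha.2⟩) (fun a ha => hK.1 ha)
    obtain ⟨-, y, hy, hyR, huy⟩ := hu (hK.1 h)
    exact ⟨h, y, hy, fun hh => hyR (hK.1 hh), huy⟩
  have mono : ∀ φ, Prop3 G R φ → ∀ p q, Bd G A R p → Bd G A R q → φ p = φ q :=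
    fun φ hφ => (alpha hA ih h4 hR hR4 hp hφ).2.2.2
  obtain ⟨p, q, hpq, hbp, hbq, hup⟩ :
      ∃ p q, p ≠ q ∧ Bd G A R p ∧ Bd G A R q ∧ (u ∈ R → u = p) := by
    by_cases h : u ∈ R
    · obtain ⟨q, hq, hbq⟩ := hA.two_bd hR (by omega) u
      exact ⟨u, q, hq.symm, hu h, hbq, fun _ => rfl⟩
    · obtain ⟨p, -, hbp⟩ := hA.two_bd hR (by omega) u
      obtain ⟨q, hq, hbq⟩ := hA.two_bd hR (by omega) p
      exact ⟨p, q, hq.symm, hbp, hbq, fun hh => absurd hh h⟩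
  have hnc : ¬ Col (plusE G p q) R := fun h => by
    obtain ⟨c, hc, hne⟩ := col_plusE hpq hbp.1 hbq.1 h
    exact hne (mono c hc p q hbp hbq)
  obtain ⟨K, hK, hKc⟩ := exists_crit hnc
  rcases hK.eq_or_ssubset with rfl | hK
  swap
  · exact sub K hK p q hKc
  have h1 := ih _ K (card_lt_card hR) hKc
  have h1' := h1.1
  have h2 := pot_plusE (G := G) p q K
  have h3 := gap hA ih _ K hR le_rfl hR4
  have hcl : Clq (plusE G p q) {p, q} := by
    intro a ha b hb hab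
    simp only [mem_insert, mem_singleton] at ha hb
    rw [plusE_adj]
    rcases ha with rfl | rfl <;> rcases hb with rfl | rfl <;> simp_all
  have h5 := ((h1.2 (by omega)).2 {p, q}
    (insert_subset hbp.1 (singleton_subset_iff.2 hbq.1)) hcl).resolve_left (by
      rw [card_pair hpq]; omega)
  obtain ⟨φ, hφ⟩ := hA.2 K hR
  have adj : ∀ a, a ∉ ({p, q} : Finset V) → ∀ b, (plusE G p q).Adj a b ↔ G.Adj a b := by
    intro a ha b
    simp only [mem_insert, mem_singleton, not_or] at ha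
    exact plusE_adj_of_ne ha.1 ha.2
  have dgK : ∀ a, a ∉ ({p, q} : Finset V) → dg (plusE G p q) K a = dg G K a :=
    fun a ha => dg_congr fun b _ => adj a ha b
  have neu : ∀ a ∈ K, a ∉ ({p, q} : Finset V) → a ∈ K ∧ a ≠ u := by
    intro a ha h
    refine ⟨ha, ?_⟩
    rintro rfl
    exact h (by rw [← hup ha]; exact mem_insert_self _ _)
  have nep : ∀ a, a ∉ ({p, q} : Finset V) → p ≠ a := by
    rintro a h rfl
    exact h (mem_insert_self _ _)
  rcases h5 with ⟨a, b, c, ⟨ha, hb, hc, e1, e2, e3, d1, d2, d3⟩, pa, pb, pc⟩ |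
    ⟨a, b, s, t, ⟨ha, hb, hs, ht, e1, e2, e3, e4, e5, hst, d1, d2⟩, pa, pb, -, -⟩
  · rw [adj a pa] at e1 e2
    rw [adj b pb] at e3
    rw [dgK a pa] at d1
    rw [dgK b pb] at d2
    rw [dgK c pc] at d3
    have key : ∀ a ∈ K, ∀ b ∈ K, ∀ c ∈ K, G.Adj a b → G.Adj a c → G.Adj b c →
        dg G K a = 3 → dg G K b = 3 → dg G K c = 3 → a ∉ ({p, q} : Finset V) →
        b ∉ ({p, q} : Finset V) → c ∉ ({p, q} : Finset V) → Bd G A K c →
        Good G A (fun a => a ∈ K ∧ a ≠ u) (· ∈ K) := by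
      intro a ha b hb c hc e1 e2 e3 d1 d2 d3 pa pb pc hbc
      have na : ¬ Bd G A K a := fun h => hφ a ha c hc e2 (mono φ hφ a c h hbc)
      have nb : ¬ Bd G A K b := fun h => hφ b hb c hc e3 (mono φ hφ b c h hbc)
      obtain ⟨a1, ha1, ea, a1b, a1c, Na⟩ := third_nbr d1 hb hc e3.ne e1 e2
      obtain ⟨b1, hb1, eb, b1a, b1c, Nb⟩ := third_nbr d2 ha hc e2.ne e1.symm e3
      obtain ⟨c1, hc1, ec, c1a, c1b, Nc⟩ := third_nbr d3 ha hb e1.ne e2.symm e3.symm
      by_cases hab : a1 = b1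
      · subst hab
        exact Or.inr ⟨a, b, c, a1, ⟨hR.1 ha, hR.1 hb, hR.1 hc, hR.1 ha1, e1, e2, ea, e3, eb,
          a1c.symm, (dg_of_not_bd hR.1 ha na).trans d1, (dg_of_not_bd hR.1 hb nb).trans d2⟩,
          neu a ha pa, neu b hb pb, hc, ha1⟩
      set B := ((K.erase a).erase b).erase c with hB
      have mB : ∀ x, x ∈ B ↔ x ≠ c ∧ x ≠ b ∧ x ≠ a ∧ x ∈ K := by
        intro x; simp only [hB, mem_erase]
      have hBK : B ⊂ K := ⟨fun x hx => ((mB x).1 hx).2.2.2, fun h => ((mB a).1 (h ha)).2.2.1 rfl⟩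
      have hnc : ¬ Col (plusE G a1 b1) B := by
        intro h
        obtain ⟨ψ, hψ, hne⟩ := col_plusE hab ((mB _).2 ⟨a1c, a1b, ea.ne.symm, ha1⟩)
          ((mB _).2 ⟨b1c, eb.ne.symm, b1a, hb1⟩) h
        obtain ⟨k, hk1, hk2⟩ := fin3_avoid (ψ c1) (ψ p)
        obtain ⟨χ, hχ, hχc, hχB⟩ := col_triangle (a := a) (b := b) (c := c) (a1 := a1) (b1 := b1)
          (c1 := c1) hψ (fun h => ((mB _).1 h).2.2.1 rfl) (fun h => ((mB _).1 h).2.1 rfl)
          (fun h => ((mB _).1 h).1 rfl) e1.ne e2.ne e3.ne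
          (fun x hx h => by have := (mB x).1 hx; have := Na x this.2.2.2 h; tauto)
          (fun x hx h => by have := (mB x).1 hx; have := Nb x this.2.2.2 h; tauto)
          (fun x hx h => by have := (mB x).1 hx; have := Nc x this.2.2.2 h; tauto) hne k hk1
        have e : insert a (insert b (insert c B)) = K := by
          rw [hB, insert_erase (mem_erase.2 ⟨e3.ne.symm, mem_erase.2 ⟨e2.ne.symm, hc⟩⟩),
            insert_erase (mem_erase.2 ⟨e1.ne.symm, hb⟩), insert_erase ha]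
        rw [e] at hχ
        have := mono χ hχ c p hbc hbp
        rw [hχc, hχB p ((mB p).2 ⟨nep c pc, nep b pb, nep a pa, hbp.1⟩)] at this
        exact hk2 this
      obtain ⟨K2, hK2, hc2⟩ := exists_crit hnc
      exact sub K2 (hK2.trans_ssubset hBK) a1 b1 hc2
    by_cases bc : Bd G A K c
    · exact key a ha b hb c hc e1 e2 e3 d1 d2 d3 pa pb pc bc
    by_cases bb : Bd G A K b
    · exact key a ha c hc b hb e2 e1 e3.symm d1 d3 d2 pa pc pb bb
    by_cases ba : Bd G A K a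
    · exact key b hb c hc a ha e3 e1.symm e2.symm d2 d3 d1 pb pc pa ba
    exact Or.inl ⟨a, b, c, ⟨hR.1 ha, hR.1 hb, hR.1 hc, e1, e2, e3,
      (dg_of_not_bd hR.1 ha ba).trans d1, (dg_of_not_bd hR.1 hb bb).trans d2,
      (dg_of_not_bd hR.1 hc bc).trans d3⟩, neu a ha pa, neu b hb pb, neu c hc pc⟩
  · rw [adj a pa] at e1 e2 e3
    rw [adj b pb] at e4 e5
    rw [dgK a pa] at d1
    rw [dgK b pb] at d2
    have Na := nbrs_of_three d1.le hb hs ht e4.ne e5.ne hst e1 e2 e3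
    have Nb := nbrs_of_three d2.le ha hs ht e2.ne e3.ne hst e1.symm e4 e5
    have hφ' := swap_twins hφ ha hb e1 (by
      intro x hx xa xb
      constructor
      · intro h
        rcases Na x hx h with rfl | rfl | rfl
        · exact absurd rfl xb
        · exact e4
        · exact e5
      · intro h
        rcases Nb x hx h with rfl | rfl | rfl
        · exact absurd rfl xa
        · exact e2
        · exact e3)
    have hsp : Equiv.swap a b p = p := Equiv.swap_apply_of_ne_of_ne (nep a pa) (nep b pb)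
    have na : ¬ Bd G A K a := fun h => by
      have h1 := mono φ hφ a p h hbp
      have h2 := mono _ hφ' a p h hbp
      simp only [Function.comp, Equiv.swap_apply_left, hsp] at h2
      exact hφ a ha b hb e1 (h1.trans h2.symm)
    have nb : ¬ Bd G A K b := fun h => by
      have h1 := mono φ hφ b p h hbp
      have h2 := mono _ hφ' b p h hbp
      simp only [Function.comp, Equiv.swap_apply_right, hsp] at h2
      exact hφ a ha b hb e1 (h2.trans h1.symm)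
    exact Or.inr ⟨a, b, s, t, ⟨hR.1 ha, hR.1 hb, hR.1 hs, hR.1 ht, e1, e2, e3, e4, e5, hst,
      (dg_of_not_bd hR.1 ha na).trans d1, (dg_of_not_bd hR.1 hb nb).trans d2⟩,
      neu a ha pa, neu b hb pb, hs, ht⟩

lemma main_of_tight (hA : Crit G A) (ih : IH A) (h4 : 4 ≤ pot G A) (hR : R ⊂ A)
    (hR4 : 4 ≤ R.card) (hp : pot G R ≤ 10) : Main G A := by
  obtain ⟨φ, hφ⟩ := hA.2 R hR
  obtain ⟨h1, h2, h3, -⟩ := alpha hA ih h4 hR hR4 hp hφ
  refine ⟨h1.le, fun _ => ⟨fun x => ?_, fun X hX hcl => Or.inr ?_⟩⟩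
  · by_cases hx : x ∈ R
    · exact h2.mono (fun a ha => (ne_of_mem_of_not_mem hx ha).symm)
        (fun a ha => (ne_of_mem_of_not_mem hx ha).symm)
    · exact (beta hA ih h4 x R hR hR4 hp fun h => absurd h hx).mono (fun a ha => ha.2)
        (fun a ha => ne_of_mem_of_not_mem ha hx)
  · by_cases hXR : X ⊆ R
    · exact h2.mono (fun a ha h => ha (hXR h)) (fun _ _ => trivial)
    obtain ⟨y, hyX, hyR⟩ := not_subset.1 hXR
    by_cases hz : ∃ z ∈ X, z ∈ R
    · obtain ⟨z, hzX, hzR⟩ := hz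
      have hyz : ∀ z ∈ X, z ∈ R → G.Adj y z := fun z h1 h2 =>
        hcl y hyX z h1 (ne_of_mem_of_not_mem h2 hyR).symm
      refine (beta hA ih h4 z R hR hR4 hp fun h => ⟨h, y, hX hyX, hyR,
        (hyz z hzX hzR).symm⟩).mono (fun a ha h => ha.2 ?_) (fun _ _ => trivial)
      exact card_le_one.1 (h3 y (hX hyX) hyR) a (mem_filter.2 ⟨ha.1, hyz a h ha.1⟩) z
        (mem_filter.2 ⟨hzR, hyz z hzX hzR⟩)
    · exact (beta hA ih h4 y R hR hR4 hp fun h => absurd h hyR).mono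
        (fun a ha h => hz ⟨a, h, ha.1⟩) (fun _ _ => trivial)

end

end Pool.Agent.P.MP_e94690_lc
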