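import Pool.Agent.P.MP_e94690_lc.KY

set_option autoImplicit false

namespace Pool.Agent.P.MP_e94690_lc

open Finset

noncomputable section
open Classical

variable {V : Type} {G : SimpleGraph V} {A R : Finset V}

lemma main_K4 (hA : Crit G A) (h4 : A.card = 4) : Main G A := by
  have hcl := hA.clq h4
  have hp : pot G A = 4 := by rw [pot_clq hcl, h4]; norm_num
  have hd : ∀ a ∈ A, dg G A a = 3 := fun a ha => by
    have h1 := hA.deg ha
    have h2 := dg_lt_card (G := G) ha
    omega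
  refine ⟨hp.le, fun _ => ⟨fun x => Or.inl ?_, fun X hX _ => ?_⟩⟩
  · have h1 : 2 < (A.erase x).card := by
      have := pred_card_le_card_erase (s := A) (a := x)
      omega
    obtain ⟨a, b, c, ha, hb, hc, hab, hac, hbc⟩ := two_lt_card_iff.1 h1
    simp only [mem_erase] at ha hb hc
    exact ⟨a, b, c, ⟨ha.2, hb.2, hc.2, hcl a ha.2 b hb.2 hab, hcl a ha.2 c hc.2 hac,
      hcl b hb.2 c hc.2 hbc, hd a ha.2, hd b hb.2, hd c hc.2⟩, ha.1, hb.1, hc.1⟩
  · by_cases h3 : 3 ≤ X.card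
    · exact Or.inl ⟨h4, h3⟩
    have h1 : 1 < (A \ X).card := by
      have := card_sdiff_add_card_eq_card hX
      omega
    obtain ⟨a, ha, b, hb, hab⟩ := one_lt_card.1 h1
    simp only [mem_sdiff] at ha hb
    have h2 : 1 < ((A.erase a).erase b).card := by
      rw [card_erase_of_mem (mem_erase.2 ⟨hab.symm, hb.1⟩), card_erase_of_mem ha.1]
      omega
    obtain ⟨s, hs, t, ht, hst⟩ := one_lt_card.1 h2
    simp only [mem_erase] at hs ht
    exact Or.inr (Or.inr ⟨a, b, s, t, ⟨ha.1, hb.1, hs.2.2, ht.2.2, hcl a ha.1 b hb.1 hab,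
      hcl a ha.1 s hs.2.2 hs.2.1.symm, hcl a ha.1 t ht.2.2 ht.2.1.symm,
      hcl b hb.1 s hs.2.2 hs.1.symm, hcl b hb.1 t ht.2.2 ht.1.symm, hst, hd a ha.1, hd b hb.1⟩,
      ha.2, hb.2, trivial, trivial⟩)

lemma Tw.not_adj {a b s t : V} (hA : Crit G A) (h : Tw G A a b s t) (h4 : A.card ≠ 4) :
    ¬ G.Adj s t := by
  obtain ⟨ha, hb, hs, ht, e1, e2, e3, e4, e5, hst, -, -⟩ := h
  intro e6
  have h1 : ({a, b, s, t} : Finset V) ⊆ A := by
    intro x hx
    simp only [mem_insert, mem_singleton] at hx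
    rcases hx with rfl | rfl | rfl | rfl <;> assumption
  rcases h1.eq_or_ssubset with h | h
  · exact h4 (h ▸ (pot_diamond e1 e2 e3 e4 e5 hst).2)
  · exact not_col_K4 e1 e2 e3 e4 e5 e6 (hA.2 _ h)

lemma Good.rich {X : Finset V} (hA : Crit G A) (h4 : A.card ≠ 4) (hX : Clq G X)
    (h : Good G A (· ∉ X) (fun _ => True)) :
    ∃ a ∈ A, ∃ b ∈ A, ∃ c ∈ A, a ∉ X ∧ b ∉ X ∧ c ∉ X ∧ G.Adj a b ∧ G.Adj a c ∧ G.Adj b c ∧
      dg G A a = 3 ∧ dg G A b = 3 := by
  rcases h with ⟨a, b, c, ⟨ha, hb, hc, e1, e2, e3, d1, d2, -⟩, pa, pb, pc⟩ |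
    ⟨a, b, s, t, h, pa, pb, -, -⟩
  · exact ⟨a, ha, b, hb, c, hc, pa, pb, pc, e1, e2, e3, d1, d2⟩
  · have h1 := h.not_adj hA h4
    obtain ⟨ha, hb, hs, ht, e1, e2, e3, e4, e5, hst, d1, d2⟩ := h
    by_cases hsX : s ∈ X
    · exact ⟨a, ha, b, hb, t, ht, pa, pb, fun h => h1 (hX s hsX t h hst), e1, e3, e5, d1, d2⟩
    · exact ⟨a, ha, b, hb, s, hs, pa, pb, hsX, e1, e2, e4, d1, d2⟩

lemma not_loose (hA : Crit G A) (ih : IH A) (h4 : 4 ≤ pot G A) (h5 : 5 ≤ A.card)
    (hl : ∀ R ⊂ A, 4 ≤ R.card → 12 ≤ pot G R) : False := by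
  have ND : ∀ a ∈ A, ∀ b ∈ A, ∀ s ∈ A, ∀ t ∈ A, G.Adj a b → G.Adj a s → G.Adj a t → G.Adj b s →
      G.Adj b t → s = t := by
    intro a ha b hb s hs t ht e1 e2 e3 e4 e5
    by_contra hst
    obtain ⟨h1, h2⟩ := pot_diamond e1 e2 e3 e4 e5 hst
    have h3 : ({a, b, s, t} : Finset V) ⊆ A := by
      intro x hx
      simp only [mem_insert, mem_singleton] at hx
      rcases hx with rfl | rfl | rfl | rfl <;> assumption
    have := hl _ (Finset.ssubset_iff_subset_ne.2 ⟨h3, fun h => by rw [h] at h2; omega⟩) h2.ge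
    omega
  have AE : ∀ B ⊂ A, ∀ u ∈ B, ∀ v ∈ B, u ≠ v → ∃ c, Prop3 G B c ∧ c u ≠ c v := by
    intro B hB u hu v hv huv
    refine col_plusE huv hu hv ?_
    by_contra h
    obtain ⟨K, hK, hc⟩ := exists_crit h
    have h1 := (ih _ K (card_lt_card (hK.trans_ssubset hB)) hc).1
    have h2 := pot_plusE (G := G) u v K
    have h3 := hl K (hK.trans_ssubset hB) hc.four_le
    omega
  have TT : ∀ a ∈ A, ∀ b ∈ A, ∀ c ∈ A, G.Adj a b → G.Adj a c → G.Adj b c → dg G A a = 3 →
      dg G A b = 3 → False := by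
    intro a ha b hb c hc e1 e2 e3 d1 d2
    obtain ⟨a1, ha1, ea, a1b, a1c, Na⟩ := third_nbr d1 hb hc e3.ne e1 e2
    obtain ⟨b1, hb1, eb, b1a, b1c, Nb⟩ := third_nbr d2 ha hc e2.ne e1.symm e3
    have hne : a1 ≠ b1 := by
      rintro rfl
      exact a1c (ND a ha b hb a1 ha1 c hc e1 ea e2 eb e3)
    set B := (A.erase a).erase b with hB
    have mB : ∀ x, x ∈ B ↔ x ≠ b ∧ x ≠ a ∧ x ∈ A := by
      intro x; simp only [hB, mem_erase]
    obtain ⟨ψ, hψ, h⟩ := AE B ((erase_subset _ _).trans_ssubset (erase_ssubset ha))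
      a1 ((mB _).2 ⟨a1b, ea.ne.symm, ha1⟩) b1 ((mB _).2 ⟨eb.ne.symm, b1a, hb1⟩) hne
    obtain ⟨i, j, hij, hik, hjk, hi, hj⟩ := fin3_two (ψ a1) (ψ b1) (ψ c) h
    have h1 := hψ.insert (v := b) (notMem_erase _ _) j (by
      intro u hu h
      have h' := (mB u).1 hu
      rcases Nb u h'.2.2 h with rfl | rfl | rfl
      · exact absurd rfl h'.2.1
      · exact hjk.symm
      · exact hj.symm)
    rw [hB, insert_erase (mem_erase.2 ⟨e1.ne.symm, hb⟩)] at h1
    have h2 := h1.insert (v := a) (notMem_erase _ _) i (by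
      intro u hu h
      rcases Na u (mem_of_mem_erase hu) h with rfl | rfl | rfl
      · rw [Function.update_self]; exact hij.symm
      · rw [Function.update_of_ne e3.ne.symm]; exact hik.symm
      · rw [Function.update_of_ne a1b]; exact hi.symm)
    rw [insert_erase ha] at h2
    exact hA.1 ⟨_, h2⟩
  have S2 : ∀ R ⊂ A, 4 ≤ R.card → pot G R ≤ 12 → (A \ R).card = 1 := by
    intro R hR hR4 hp
    obtain ⟨y0, hy0, -⟩ := exists_of_ssubset hR
    obtain ⟨p, -, hbp⟩ := hA.two_bd hR (by omega) y0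
    obtain ⟨q, hq, hbq⟩ := hA.two_bd hR (by omega) p
    obtain ⟨φ, hφ, hpq⟩ := AE R hR p hbp.1 q hbq.1 hq.symm
    obtain ⟨H, X, Y, l, i, hXR, hY, hYne, hXne, hX3, hK, hcl, hout, hq, hl0⟩ :=
      ext hA hR.1 (by omega) hφ
    have h1 := ih H _ (card_ext hR.1 hR4 hY hX3) hK
    have h1' := h1.1
    have h2 := pot_clq3 hcl hXne hX3
    obtain ⟨h3, h5⟩ := union_cases hR.1 hY hYne
    have h6 := card_lt_card h3
    rcases h5 with h5 | h5
    swap
    · have := hl _ h5 (by omega)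
      omega
    have hq' := hq
    rw [h5] at hq'
    have hl1 : l = 0 := by omega
    have hYm : ∀ y ∈ A, y ∉ R → y ∈ Y := fun y hy hyR =>
      (mem_union.1 (h5 ▸ hy : y ∈ R ∪ Y)).resolve_left hyR
    have hX1 : X.card ≠ 1 := by
      intro hX1
      obtain ⟨hu, y, hy, hyR, huy⟩ := hbp
      obtain ⟨hv, z, hz, hzR, hvz⟩ := hbq
      apply hpq
      rw [(hl0 hl1 y (hYm y hy hyR)).2.2 hX1 p hu huy.symm,
        (hl0 hl1 z (hYm z hz hzR)).2.2 hX1 q hv hvz.symm]
    have hYe : A \ R = Y := Subset.antisymm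
      (fun y hy => hYm y (mem_sdiff.1 hy).1 (mem_sdiff.1 hy).2) hY
    have hdXY : Disjoint X Y := disjoint_left.2 fun a ha hb => (mem_sdiff.1 (hY hb)).2 (hXR ha)
    have hc := card_union_of_disjoint hdXY
    rw [hYe]
    by_contra hY1
    have hc4 : (X ∪ Y).card ≠ 4 := by omega
    obtain ⟨a, ha, b, hb, c, hc, pa, pb, pc, e1, e2, e3, d1, d2⟩ :=
      (((h1.2 (by omega)).2 X subset_union_left hcl).resolve_left (by omega)).rich hK hc4 hcl
    have ya := (mem_union.1 ha).resolve_left pa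
    have yb := (mem_union.1 hb).resolve_left pb
    have yc := (mem_union.1 hc).resolve_left pc
    have ma := mem_sdiff.1 (hY ya)
    have mb := mem_sdiff.1 (hY yb)
    have mc := mem_sdiff.1 (hY yc)
    rw [(hl0 hl1 a ya).2.1, h5] at d1
    rw [(hl0 hl1 b yb).2.1, h5] at d2
    exact TT a ma.1 b mb.1 c mc.1 ((hout a ma.2 b mb.2).1 e1) ((hout a ma.2 c mc.2).1 e2)
      ((hout b mb.2 c mc.2).1 e3) d1 d2
  have hnp : pot G A ≤ 0 := by
    refine pot_nonpos (fun v hv => hA.deg hv) fun x hx y hy v hv dx dy dv exy exv => ?_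
    by_contra hyv
    obtain ⟨u, hu, exu, uy, uv, Nx⟩ := third_nbr dx hy hv hyv exy exv
    have hn : ¬ G.Adj u v := fun h => TT x hx v hv u hu exv exu h.symm dx dv
    obtain ⟨H, K, hKA, huK, hxK, hyK, hvK, hK, h1, h2, hp1, hp2⟩ :=
      glue hA hx hy hu hv exy exu exv uv uy.symm hyv hn dx dy
    have hxK' : x ∉ insert v K := by
      rw [mem_insert]; exact fun h => h.elim exv.ne hxK
    set R := insert x (insert v K) with hR
    have hyR : y ∉ R := by
      simp only [hR, mem_insert, not_or]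
      exact ⟨exy.ne.symm, hyv, hyK⟩
    have hRA : R ⊂ A := ⟨insert_subset hx (insert_subset hv hKA), fun h => hyR (h hy)⟩
    have hRc : R.card = K.card + 2 := by
      rw [hR, card_insert_of_notMem hxK', card_insert_of_notMem hvK]
    have hK4 := hK.four_le
    have hRA' := card_lt_card hRA
    have hm := ih H K (by omega) hK
    have hm1 := hm.1
    have h12 := hl R hRA (by omega)
    have hone := S2 R hRA (by omega) (by omega)
    have hAe : A = insert y R := by
      obtain ⟨w, hw⟩ := card_eq_one.1 hone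
      have : y ∈ A \ R := mem_sdiff.2 ⟨hy, hyR⟩
      rw [hw, mem_singleton] at this
      rw [insert_eq, this, ← hw, sdiff_union_of_subset hRA.1]
    have hlow : ∀ a ∈ K, a ≠ u → dg H K a = 3 → ¬ G.Adj a y → dg G A a = 3 := by
      intro a ha hau hd hay
      have hax : ¬ G.Adj a x := fun h => by
        rcases Nx a (hKA ha) h.symm with rfl | rfl | rfl
        · exact hyK ha
        · exact hvK ha
        · exact hau rfl
      have hnb : ¬ (G.Adj a u ∧ G.Adj a v) := fun h => by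
        have := hp2 a ha h.1 h.2
        omega
      rw [hAe, dg_insert hyR, hR, dg_insert hxK', dg_insert hvK, dg_erase huK, if_neg hay,
        if_neg hax]
      rw [dg_erase huK, dg_congr (G := H) (H := G) fun b hb => h1 a hau b (ne_of_mem_erase hb),
        h2 a hau] at hd
      by_cases e1 : G.Adj a u <;> by_cases e2 : G.Adj a v
      · exact absurd ⟨e1, e2⟩ hnb
      all_goals simp only [e1, e2, or_true, or_false, if_true, if_false] at hd ⊢
      all_goals omega
    rcases (hm.2 (by omega)).1 u with ⟨a, b, c, ⟨ha, hb, hc, e1, e2, e3, d1, d2, d3⟩, pa, pb, pc⟩ |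
      ⟨a, b, s, t, ⟨ha, hb, hs, ht, e1, e2, e3, e4, e5, hst, d1, d2⟩, pa, pb, ps, pt⟩
    · rw [h1 _ pa _ pb] at e1
      rw [h1 _ pa _ pc] at e2
      rw [h1 _ pb _ pc] at e3
      have key : ∀ a ∈ K, ∀ b ∈ K, ∀ c ∈ K, G.Adj a b → G.Adj a c → G.Adj b c → G.Adj a y →
          G.Adj b y → False := fun a ha b hb c hc e1 e2 e3 e4 e5 =>
        hyK (ND a (hKA ha) b (hKA hb) c (hKA hc) y hy e1 e2 e4 e3 e5 ▸ hc)
      by_cases ay : G.Adj a y <;> by_cases by' : G.Adj b y <;> by_cases cy : G.Adj c y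
      · exact key a ha b hb c hc e1 e2 e3 ay by'
      · exact key a ha b hb c hc e1 e2 e3 ay by'
      · exact key a ha c hc b hb e2 e1 e3.symm ay cy
      · exact TT b (hKA hb) c (hKA hc) a (hKA ha) e3 e1.symm e2.symm (hlow b hb pb d2 by')
          (hlow c hc pc d3 cy)
      · exact key b hb c hc a ha e3 e1.symm e2.symm by' cy
      · exact TT a (hKA ha) c (hKA hc) b (hKA hb) e2 e1 e3.symm (hlow a ha pa d1 ay)
          (hlow c hc pc d3 cy)
      · exact TT a (hKA ha) b (hKA hb) c (hKA hc) e1 e2 e3 (hlow a ha pa d1 ay)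
          (hlow b hb pb d2 by')
      · exact TT a (hKA ha) b (hKA hb) c (hKA hc) e1 e2 e3 (hlow a ha pa d1 ay)
          (hlow b hb pb d2 by')
    · exact hst (ND a (hKA ha) b (hKA hb) s (hKA hs) t (hKA ht) ((h1 _ pa _ pb).1 e1)
        ((h1 _ pa _ ps).1 e2) ((h1 _ pa _ pt).1 e3) ((h1 _ pb _ ps).1 e4) ((h1 _ pb _ pt).1 e5))
  omega

/-- Kostochka-Yancey for `k = 4`, with the structure of the extremal graphs -/
theorem main_thm : ∀ (n : ℕ) (G : SimpleGraph V) (A : Finset V), A.card ≤ n → Crit G A →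
    Main G A := by
  intro n
  induction n with
  | zero =>
    intro G A h hA
    have := hA.four_le
    omega
  | succ n ihn =>
    intro G A h hA
    have ih : IH A := fun H B hB hc => ihn H B (by omega) hc
    by_cases h4 : pot G A < 4
    · exact ⟨h4.le, fun h => by omega⟩
    have hc := hA.four_le
    by_cases hc4 : A.card = 4
    · exact main_K4 hA hc4
    by_cases hl : ∀ R ⊂ A, 4 ≤ R.card → 12 ≤ pot G R
    · exact (not_loose hA ih (by omega) (by omega) hl).elim
    push Not at hl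
    obtain ⟨R, hR, h1, h2⟩ := hl
    obtain ⟨k, hk⟩ := pot_even G R
    exact main_of_tight hA ih (by omega) hR h1 (by omega)

lemma Crit.pot_le_two {X : Finset V} (hA : Crit G A) (hX : X ⊆ A) (hcl : Clq G X)
    (ht : TriFree G (A \ X)) : pot G A ≤ 2 ∨ (pot G A = 4 ∧ A.card = 4 ∧ 2 ≤ X.card) := by
  have hm := main_thm _ G A le_rfl hA
  obtain ⟨k, hk⟩ := pot_even G A
  have h1 := hm.1
  by_cases h : pot G A ≤ 2
  · exact Or.inl h
  refine Or.inr ⟨by omega, ?_⟩
  by_cases h4 : A.card = 4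
  · refine ⟨h4, ?_⟩
    by_contra h2
    have h3 : 2 < (A \ X).card := by
      have := card_sdiff_add_card_eq_card hX
      omega
    obtain ⟨a, b, c, ha, hb, hc, hab, hac, hbc⟩ := two_lt_card_iff.1 h3
    have hq := hA.clq h4
    exact ht a ha b hb c hc (hq a (sdiff_subset ha) b (sdiff_subset hb) hab)
      (hq a (sdiff_subset ha) c (sdiff_subset hc) hac)
      (hq b (sdiff_subset hb) c (sdiff_subset hc) hbc)
  · obtain ⟨a, ha, b, hb, c, hc, pa, pb, pc, e1, e2, e3, -⟩ :=
      (((hm.2 (by omega)).2 X hX hcl).resolve_left (by omega)).rich hA h4 hcl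
    exact (ht a (mem_sdiff.2 ⟨ha, pa⟩) b (mem_sdiff.2 ⟨hb, pb⟩) c (mem_sdiff.2 ⟨hc, pc⟩)
      e1 e2 e3).elim

lemma Crit.pot_le_of_vertex (hA : Crit G A) {u : V} (hu : u ∈ A) (ht : TriFree G (A.erase u)) :
    pot G A ≤ 2 := by
  refine (hA.pot_le_two (X := {u}) (singleton_subset_iff.2 hu)
    (fun a ha b hb hab => absurd ((mem_singleton.1 ha).trans (mem_singleton.1 hb).symm) hab)
    (by rwa [sdiff_singleton_eq_erase])).resolve_right (by simp)

/-- extension step inside a triangle-free critical graph -/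
lemma ext_tf (hA : Crit G A) (ht : TriFree G A) (hR : R ⊂ A) (h3 : 3 ≤ R.card) {φ : V → Fin 3}
    (hφ : Prop3 G R φ) : ∃ Y ⊆ A \ R, Y.Nonempty ∧ pot G (R ∪ Y) ≤ pot G R - 8 ∧
      (pot G (R ∪ Y) = pot G R - 8 → Y.card = 1 ∨
        ∃ i, ∀ y ∈ Y, ∀ u ∈ R, G.Adj y u → φ u = i) := by
  obtain ⟨H, X, Y, l, i, hXR, hY, hYne, hXne, hX3, hK, hcl, hout, hq, hl⟩ := ext hA hR.1 h3 hφ
  have h2 := pot_clq3 hcl hXne hX3
  have hdXY : Disjoint X Y := disjoint_left.2 fun a ha hb => (mem_sdiff.1 (hY hb)).2 (hXR ha)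
  have hc := card_union_of_disjoint hdXY
  have h1 := hK.pot_le_two subset_union_left hcl (by
    intro a ha b hb c hc e1 e2 e3
    have m : ∀ a ∈ (X ∪ Y) \ X, a ∈ A ∧ a ∉ R := fun a ha =>
      mem_sdiff.1 (hY ((mem_union.1 (mem_sdiff.1 ha).1).resolve_left (mem_sdiff.1 ha).2))
    exact ht a (m a ha).1 b (m b hb).1 c (m c hc).1 ((hout a (m a ha).2 b (m b hb).2).1 e1)
      ((hout a (m a ha).2 c (m c hc).2).1 e2) ((hout b (m b hb).2 c (m c hc).2).1 e3))
  refine ⟨Y, hY, hYne, by omega, fun h => ?_⟩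
  by_cases hX1 : X.card = 1
  · exact Or.inr ⟨i, fun y hy => (hl (by omega) y hy).2.2 hX1⟩
  · exact Or.inl (by omega)

lemma gap_tf (hA : Crit G A) (ht : TriFree G A) :
    ∀ n, ∀ R ⊂ A, A.card - R.card ≤ n → 3 ≤ R.card → pot G A + 8 ≤ pot G R := by
  intro n
  induction n with
  | zero =>
    intro R hR h _
    have := card_lt_card hR
    omega
  | succ n ihn =>
    intro R hR h h3
    obtain ⟨φ, hφ⟩ := hA.2 R hR
    obtain ⟨Y, hY, hYne, h1, -⟩ := ext_tf hA ht hR h3 hφ
    obtain ⟨h4, h5⟩ := union_cases hR.1 hY hYne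
    have h6 := card_lt_card h4
    rcases h5 with h5 | h5
    · rw [h5] at h1
      omega
    · have := ihn _ h5 (by omega) (by omega)
      omega

/-- triangle-free 4-critical graphs have at least `5n/3` edges -/
theorem pot_tf (hA : Crit G A) (ht : TriFree G A) : pot G A ≤ 0 := by
  by_contra hp
  obtain ⟨k, hk⟩ := pot_even G A
  apply hp
  refine pot_nonpos (fun v hv => hA.deg hv) fun y hy x hx z hz dy dx dz eyx eyz => ?_
  by_contra hxz
  obtain ⟨u, hu, v, hv, exu, exv, uy, vy, vu, Nx⟩ := two_more_nbrs dx hy eyx.symm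
  obtain ⟨H, K, hKA, huK, hxK, hyK, hvK, hK, h1, h2, hp1, -⟩ :=
    glue hA hx hy hu hv eyx.symm exu exv vu.symm uy.symm vy.symm
      (fun h => ht x hx u hu v hv exu exv h) dx dy
  have hK2 : pot H K ≤ 2 := hK.pot_le_of_vertex huK (by
    intro a ha b hb c hc e1 e2 e3
    simp only [mem_erase] at ha hb hc
    exact ht a (hKA ha.2) b (hKA hb.2) c (hKA hc.2) ((h1 a ha.1 b hb.1).1 e1)
      ((h1 a ha.1 c hc.1).1 e2) ((h1 b hb.1 c hc.1).1 e3))
  have zu : z ≠ u := by rintro rfl; exact ht y hy x hx z hz eyx eyz exu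
  have zv : z ≠ v := by rintro rfl; exact ht y hy x hx z hz eyx eyz exv
  have hzK : z ∉ K := by
    intro h
    have h3 := hK.deg h
    obtain ⟨z1, -, z2, -, -, -, -, -, -, Nz⟩ := two_more_nbrs dz hy eyz.symm
    have h4 := dg_le (G := H) (A := K) (v := z)
      {if z1 = v then u else z1, if z2 = v then u else z2} (by
        intro a ha hza
        simp only [mem_insert, mem_singleton]
        have hav := ne_of_mem_of_not_mem ha hvK
        have hay := ne_of_mem_of_not_mem ha hyK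
        by_cases hau : a = u
        · subst hau
          rcases (h2 z zu).1 hza with h | h
          · rcases Nz a hu h with h | h | h
            · exact absurd h hay
            · left; rw [← h, if_neg hav]
            · right; rw [← h, if_neg hav]
          · rcases Nz v hv h with h | h | h
            · exact absurd h vy
            · left; rw [if_pos h.symm]
            · right; rw [if_pos h.symm]
        · rcases Nz a (hKA ha) ((h1 z zu a hau).1 hza) with h | h | h
          · exact absurd h hay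
          · left; rw [← h, if_neg hav]
          · right; rw [← h, if_neg hav])
    have h5 := card_le_two (a := if z1 = v then u else z1) (b := if z2 = v then u else z2)
    omega
  have hxK' : x ∉ insert v K := by
    rw [mem_insert]; exact fun h => h.elim exv.ne hxK
  set R := insert x (insert v K) with hR
  have hyR : y ∉ R := by
    simp only [hR, mem_insert, not_or]
    exact ⟨eyx.ne, vy.symm, hyK⟩
  have hzR : z ∉ R := by
    simp only [hR, mem_insert, not_or]
    exact ⟨fun h => hxz h.symm, zv, hzK⟩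
  have hRA : R ⊂ A := ⟨insert_subset hx (insert_subset hv hKA), fun h => hyR (h hy)⟩
  have hRc : R.card = K.card + 2 := by
    rw [hR, card_insert_of_notMem hxK', card_insert_of_notMem hvK]
  have hK4 := hK.four_le
  have hxR : x ∈ R := mem_insert_self _ _
  obtain ⟨b, hbx, hb⟩ := hA.two_bd hRA (by omega) x
  have hcol : Col (plusE G x b) R := by
    by_contra h
    obtain ⟨K1, hK1, hc⟩ := exists_crit h
    have h3 := gap_tf hA ht _ K1 (hK1.trans_ssubset hRA) le_rfl (by have := hc.four_le; omega)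
    have h4 := pot_plusE (G := G) x b K1
    have hK1A := hK1.trans hRA.1
    have adj : ∀ a, a ≠ x → ∀ c, c ≠ x → (plusE G x b).Adj a c → G.Adj a c := by
      intro a ha c hc h
      rw [plusE_adj] at h
      tauto
    by_cases hx1 : x ∈ K1
    · have h5 := hc.pot_le_of_vertex hx1 (by
        intro a ha b hb c hc e1 e2 e3
        simp only [mem_erase] at ha hb hc
        exact ht a (hK1A ha.2) b (hK1A hb.2) c (hK1A hc.2) (adj a ha.1 b hb.1 e1)
          (adj a ha.1 c hc.1 e2) (adj b hb.1 c hc.1 e3))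
      omega
    · exact hc.1 ((hA.2 K1 (hK1.trans_ssubset hRA)).of_le fun a ha c hc =>
        adj a (ne_of_mem_of_not_mem ha hx1) c (ne_of_mem_of_not_mem hc hx1))
  obtain ⟨φ, hφ, hne⟩ := col_plusE hbx.symm hxR hb.1 hcol
  obtain ⟨Y, hY, hYne, h3, h4⟩ := ext_tf hA ht hRA (by omega) hφ
  obtain ⟨h5, h6⟩ := union_cases hRA.1 hY hYne
  have h7 := card_lt_card h5
  rcases h6 with h6 | h6
  swap
  · have := gap_tf hA ht _ _ h6 le_rfl (by omega)
    omega
  have hYm : ∀ y ∈ A, y ∉ R → y ∈ Y := fun y hy hyR =>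
    (mem_union.1 (h6 ▸ hy : y ∈ R ∪ Y)).resolve_left hyR
  have h8 := gap_tf hA ht _ _ hRA le_rfl (by omega)
  rw [h6] at h3 h4
  rcases h4 (by omega) with h | ⟨i, h⟩
  · exact eyz.ne (card_le_one.1 h.le y (hYm y hy hyR) z (hYm z hz hzR))
  · obtain ⟨hbR, w, hw, hwR, hbw⟩ := hb
    exact hne ((h y (hYm y hy hyR) x hxR eyx).trans (h w (hYm w hw hwR) b hbR hbw.symm).symm)

end

end Pool.Agent.P.MP_e94690_lc
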